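import Pool.Agent.Lib.MP_0a6a2f_gt.Graph

/-! The group `Z/7 ⋊ Z` and finite graphs on which it acts. -/

namespace Pool.Agent.Lib.PD66

open Relation Pool.Agent.Lib.MP_0a6a2f_gt

def u7 : (ZMod 7)ˣ := ⟨2, 4, by decide, by decide⟩

/-- The group `Z/7 ⋊ Z`. -/
@[ext] structure Gam where
  c : ZMod 7
  n : ℤ

instance : Mul Gam := ⟨fun a b => ⟨a.c + (u7 ^ a.n : (ZMod 7)ˣ) * b.c, a.n + b.n⟩⟩
instance : One Gam := ⟨⟨0, 0⟩⟩
instance : Inv Gam := ⟨fun a => ⟨-((u7 ^ (-a.n) : (ZMod 7)ˣ) * a.c), -a.n⟩⟩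

@[simp] theorem mul_c (a b : Gam) : (a * b).c = a.c + (u7 ^ a.n : (ZMod 7)ˣ) * b.c := rfl
@[simp] theorem mul_n (a b : Gam) : (a * b).n = a.n + b.n := rfl
@[simp] theorem one_c : (1 : Gam).c = 0 := rfl
@[simp] theorem one_n : (1 : Gam).n = 0 := rfl
@[simp] theorem inv_n (a : Gam) : a⁻¹.n = -a.n := rfl
theorem inv_c (a : Gam) : a⁻¹.c = -((u7 ^ (-a.n) : (ZMod 7)ˣ) * a.c) := rfl

instance : Group Gam := Group.ofLeftAxioms
  (fun a b c => Gam.ext (by simp only [mul_c, mul_n, zpow_add, Units.val_mul]; ring)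
    (add_assoc _ _ _))
  (fun a => Gam.ext (by simp) (by simp))
  (fun a => Gam.ext (by rw [mul_c, inv_c, inv_n, neg_add_cancel, one_c]) (by simp))

def ga : Gam := ⟨1, 0⟩
def gt : Gam := ⟨0, 1⟩

theorem gen : Subgroup.closure {ga, gt} = ⊤ := by
  have ha : ga ∈ Subgroup.closure {ga, gt} := Subgroup.subset_closure (by simp)
  have ht : gt ∈ Subgroup.closure {ga, gt} := Subgroup.subset_closure (by simp)
  have h1 : ∀ k : ℕ, (⟨k, 0⟩ : Gam) ∈ Subgroup.closure {ga, gt} := fun k => by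
    induction k with
    | zero => exact one_mem _
    | succ k ih => convert mul_mem ih ha using 1; ext <;> simp [ga]
  have h2 : ∀ n : ℤ, (⟨0, n⟩ : Gam) ∈ Subgroup.closure {ga, gt} := fun n => by
    induction n with
    | zero => exact one_mem _
    | succ k ih => convert mul_mem ih ht using 1; ext <;> simp [gt]
    | pred k ih => convert mul_mem ih (inv_mem ht) using 1; ext <;> simp [gt, inv_c, sub_eq_add_neg]
  refine eq_top_iff.2 fun g _ => ?_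
  convert mul_mem (h1 g.c.val) (h2 g.n) using 1
  ext <;> simp

instance : Infinite Gam :=
  Infinite.of_injective (fun n : ℤ => (⟨0, n⟩ : Gam)) fun _ _ h => congrArg Gam.n h

theorem no_inv (φ : Gam →* Gam) (hφ : Function.Injective φ) : (φ gt).n ≠ -1 := by
  intro h
  have e : φ gt * φ ga = φ ga * φ ga * φ gt := by
    rw [← map_mul, ← map_mul, ← map_mul]
    exact congrArg φ (Gam.ext (by simp [ga, gt, u7]; decide) (by simp [ga, gt]))
  have e1 : (φ ga).n = 0 := by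
    have := congrArg Gam.n e
    simp only [mul_n] at this
    omega
  have e2 := congrArg Gam.c e
  simp only [mul_c, mul_n, e1, h, add_zero, zpow_zero, Units.val_one, one_mul, zpow_neg, zpow_one]
    at e2
  have e3 : ∀ a b : ZMod 7, a + 4 * b = b + b + a → b = 0 := by decide
  exact absurd (congrArg Gam.c (hφ ((Gam.ext (e3 _ _ e2) e1).trans φ.map_one.symm))) (by decide)

/-- Finite graphs with an action of `Gam`. -/
structure GG : Type 1 extends FG where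
  act : Gam → V → V
  one : ∀ v, act 1 v = v
  mul : ∀ a b v, act (a * b) v = act a (act b v)
  hact : ∀ γ u v, adj u v → adj (act γ u) (act γ v)

/-- Equivariant connected epimorphisms. -/
structure Mor (A B : GG) (f : A.V → B.V) : Prop where
  good : Good A.adj B.adj f
  eqv : ∀ γ v, f (A.act γ v) = B.act γ (f v)

theorem Mor.id (A : GG) : Mor A A fun v => v := ⟨Good.id _, fun _ _ => rfl⟩

theorem Mor.comp {A B C : GG} {f : A.V → B.V} {g : B.V → C.V} (hg : Mor B C g) (hf : Mor A B f) :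
    Mor A C fun v => g (f v) :=
  ⟨hg.good.comp hf.good, fun γ v => by rw [hf.eqv, hg.eqv]⟩

theorem Mor.surj {A B : GG} {f : A.V → B.V} (h : Mor A B f) (b : B.V) : ∃ a, f a = b :=
  Good.surj (A := A.toFG) (B := B.toFG) h.good b

theorem conn_map {α β : Type} {r : α → α → Prop} {S : α → Prop} {s : β → β → Prop} {S' : β → Prop}
    (F : ∀ x, S x → β) (h : ∀ x y hx hy, r x y → s (F x hx) (F y hy)) (h' : ∀ x hx, S' (F x hx))
    {u v : α} (huv : Conn r S u v) (hu : S u) (hv : S v) : Conn s S' (F u hu) (F v hv) := by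
  induction huv with
  | refl => exact ReflTransGen.refl
  | tail _ hbc ih => exact (ih hbc.2.1).trans (Conn.single (h _ _ _ _ hbc.1) (h' _ _) (h' _ _))

/-- A graph with the trivial action. -/
def triv (A : FG) : GG :=
  { A with act := fun _ v => v, one := fun _ => rfl, mul := fun _ _ _ => rfl, hact := fun _ _ _ h => h }

theorem exists_moved {γ : Gam} (h : γ ≠ 1) :
    ∃ K : GG, (∀ u v, K.adj u v) ∧ ∃ v, K.act γ v ≠ v := by
  by_cases hn : γ.n = 0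
  · refine ⟨⟨⟨ZMod 7, inferInstance, fun _ _ => True, by simp, by simp⟩,
      fun g x => g.c + (u7 ^ g.n : (ZMod 7)ˣ) * x, by simp, fun a b v => ?_, by simp⟩, by simp,
      (0 : ZMod 7), fun e => h (Gam.ext (by simpa using e) hn)⟩
    simp only [mul_c, mul_n, zpow_add, Units.val_mul]
    ring
  · refine ⟨⟨⟨ZMod (γ.n.natAbs + 1), inferInstance, fun _ _ => True, by simp, by simp⟩,
      fun g x => g.n + x, by simp, fun a b v => ?_, by simp⟩, by simp,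
      (0 : ZMod (γ.n.natAbs + 1)), fun e => hn ?_⟩
    · simp only [mul_n, Int.cast_add, add_assoc]
    · have : (γ.n : ZMod (γ.n.natAbs + 1)) = 0 := by simpa using e
      exact Int.eq_zero_of_abs_lt_dvd ((ZMod.intCast_zmod_eq_zero_iff_dvd _ _).1 this) (by simp)

/-- Fibre product. -/
def fp {A B C : GG} {f : A.V → C.V} {g : B.V → C.V} (hf : Mor A C f) (hg : Mor B C g) : GG where
  V := {p : A.V × B.V // f p.1 = g p.2}
  fin := inferInstance
  adj x y := A.adj x.1.1 y.1.1 ∧ B.adj x.1.2 y.1.2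
  refl _ := ⟨A.refl _, B.refl _⟩
  symm _ _ h := ⟨A.symm _ _ h.1, B.symm _ _ h.2⟩
  act γ x := ⟨(A.act γ x.1.1, B.act γ x.1.2), by rw [hf.eqv, hg.eqv, x.2]⟩
  one _ := Subtype.ext (Prod.ext (A.one _) (B.one _))
  mul _ _ _ := Subtype.ext (Prod.ext (A.mul _ _ _) (B.mul _ _ _))
  hact _ _ _ h := ⟨A.hact _ _ _ h.1, B.hact _ _ _ h.2⟩

theorem fp_fst {A B C : GG} {f : A.V → C.V} {g : B.V → C.V} (hf : Mor A C f) (hg : Mor B C g) :
    Mor (fp hf hg) A fun x => x.1.1 := by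
  refine ⟨⟨fun _ _ h => h.1, fun a a' h => ?_, ?_⟩, fun _ _ => rfl⟩
  · obtain ⟨b, b', h1, h2, h3⟩ := hg.good.lift _ _ (hf.good.hom _ _ h)
    exact ⟨⟨(a, b), h2.symm⟩, ⟨(a', b'), h3.symm⟩, ⟨h, h1⟩, rfl, rfl⟩
  · rintro ⟨⟨a, b⟩, h1⟩ ⟨⟨_, b'⟩, h2⟩ ⟨⟩
    exact conn_map (s := (fp hf hg).adj) (S' := fun x => x.1.1 = a)
      (fun x (hx : g x = g b) => ⟨(a, x), h1.trans hx.symm⟩) (fun _ _ _ _ h => ⟨A.refl _, h⟩)
      (fun _ _ => rfl) (hg.good.conn b b' (h1.symm.trans h2)) rfl (h2.symm.trans h1)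

theorem fp_snd {A B C : GG} {f : A.V → C.V} {g : B.V → C.V} (hf : Mor A C f) (hg : Mor B C g) :
    Mor (fp hf hg) B fun x => x.1.2 := by
  refine ⟨⟨fun _ _ h => h.2, fun b b' h => ?_, ?_⟩, fun _ _ => rfl⟩
  · obtain ⟨a, a', h1, h2, h3⟩ := hf.good.lift _ _ (hg.good.hom _ _ h)
    exact ⟨⟨(a, b), h2⟩, ⟨(a', b'), h3⟩, ⟨h1, h⟩, rfl, rfl⟩
  · rintro ⟨⟨a, b⟩, h1⟩ ⟨⟨a', _⟩, h2⟩ ⟨⟩
    exact conn_map (s := (fp hf hg).adj) (S' := fun x => x.1.2 = b)
      (fun x (hx : f x = f a) => ⟨(x, b), hx.trans h1⟩) (fun _ _ _ _ h => ⟨h, B.refl _⟩)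
      (fun _ _ => rfl) (hf.good.conn a a' (h1.trans h2.symm)) rfl (h2.trans h1.symm)

/-- Product. -/
def prod (A D : GG) : GG where
  V := A.V × D.V
  fin := inferInstance
  adj x y := A.adj x.1 y.1 ∧ D.adj x.2 y.2
  refl _ := ⟨A.refl _, D.refl _⟩
  symm _ _ h := ⟨A.symm _ _ h.1, D.symm _ _ h.2⟩
  act γ x := (A.act γ x.1, D.act γ x.2)
  one _ := Prod.ext (A.one _) (D.one _)
  mul _ _ _ := Prod.ext (A.mul _ _ _) (D.mul _ _ _)
  hact _ _ _ h := ⟨A.hact _ _ _ h.1, D.hact _ _ _ h.2⟩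

theorem prod_fst (A : GG) {D : GG} (d : D.V) (h : ∀ u v, Conn D.adj (fun _ => True) u v) :
    Mor (prod A D) A Prod.fst := by
  refine ⟨⟨fun _ _ h => h.1, fun a a' h => ⟨(a, d), (a', d), ⟨h, D.refl _⟩, rfl, rfl⟩, ?_⟩,
    fun _ _ => rfl⟩
  rintro ⟨a, b⟩ ⟨_, b'⟩ ⟨⟩
  exact conn_map (s := (prod A D).adj) (S' := fun x => x.1 = a) (fun x _ => (a, x))
    (fun _ _ _ _ h => ⟨A.refl _, h⟩) (fun _ _ => rfl) (h b b') trivial trivial

theorem amalg {A : GG} {ι : Type} [Finite ι] (C : ι → GG) (q : ∀ i, (C i).V → A.V)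
    (hq : ∀ i, Mor (C i) A (q i)) : ∃ (D : GG) (p : D.V → A.V), Mor D A p ∧
      ∀ i, ∃ r, Mor D (C i) r ∧ ∀ v, q i (r v) = p v := by
  classical
  have := Fintype.ofFinite ι
  have : ∀ s : Finset ι, ∃ (D : GG) (p : D.V → A.V), Mor D A p ∧
      ∀ i ∈ s, ∃ r, Mor D (C i) r ∧ ∀ v, q i (r v) = p v := fun s => by
    induction s using Finset.induction_on with
    | empty => exact ⟨A, _, Mor.id A, by simp⟩
    | insert j s _ ih =>
      obtain ⟨D, p, hp, h⟩ := ih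
      refine ⟨_, _, hp.comp (fp_fst hp (hq j)), fun i hi => ?_⟩
      rcases Finset.mem_insert.1 hi with rfl | hi
      · exact ⟨_, fp_snd hp (hq i), fun v => v.2.symm⟩
      · obtain ⟨r, hr, e⟩ := h i hi
        exact ⟨_, hr.comp (fp_fst hp (hq j)), fun v => e _⟩
  obtain ⟨D, p, hp, h⟩ := this Finset.univ
  exact ⟨D, p, hp, fun i => h i (Finset.mem_univ i)⟩

/-- Extensions of `A` with vertex set `Fin m`. -/
structure Tk (A : GG) (m : ℕ) where
  adj : Fin m → Fin m → Prop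
  act : Gam → Fin m → Fin m
  q : Fin m → A.V
  refl : ∀ v, adj v v
  symm : ∀ u v, adj u v → adj v u
  one : ∀ v, act 1 v = v
  mul : ∀ a b v, act (a * b) v = act a (act b v)
  hact : ∀ γ u v, adj u v → adj (act γ u) (act γ v)
  good : Good adj A.adj q
  eqv : ∀ γ v, q (act γ v) = A.act γ (q v)

def Tk.gg {A : GG} {m : ℕ} (t : Tk A m) : GG :=
  ⟨⟨Fin m, inferInstance, t.adj, t.refl, t.symm⟩, t.act, t.one, t.mul, t.hact⟩

instance (A : GG) (m : ℕ) : Finite (Tk A m) := by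
  refine Finite.of_injective (fun t : Tk A m => (t.adj, t.act ga, t.act gt, t.q)) fun t t' h => ?_
  obtain ⟨h1, h2, h3, h4⟩ : t.adj = t'.adj ∧ t.act ga = t'.act ga ∧ t.act gt = t'.act gt ∧
    t.q = t'.q := by simpa using h
  have : t.act = t'.act := funext fun γ => by
    have hγ : γ ∈ Subgroup.closure {ga, gt} := gen ▸ Subgroup.mem_top γ
    induction hγ using Subgroup.closure_induction with
    | mem s hs => rcases hs with rfl | rfl <;> assumption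
    | one => exact funext fun v => (t.one v).trans (t'.one v).symm
    | mul a b _ _ iha ihb => exact funext fun v => by rw [t.mul, t'.mul, iha, ihb]
    | inv a _ iha =>
      funext v
      have e : v = t.act a (t'.act a⁻¹ v) := by rw [iha, ← t'.mul, mul_inv_cancel, t'.one]
      conv_lhs => rw [e, ← t.mul, inv_mul_cancel, t.one]
  cases t
  cases t'
  congr

theorem next_exists (A : GG) (k : ℕ) : ∃ (D : GG) (p : D.V → A.V), Mor D A p ∧
    ∀ (C : GG) (q : C.V → A.V), Mor C A q → Nat.card C.V ≤ k →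
      ∃ r, Mor D C r ∧ ∀ v, q (r v) = p v := by
  obtain ⟨D, p, hp, h⟩ := amalg (ι := Σ m : Fin (k + 1), Tk A m) (fun t => t.2.gg) (fun t => t.2.q)
    fun t => ⟨t.2.good, t.2.eqv⟩
  refine ⟨D, p, hp, fun C q hq hk => ?_⟩
  let e := (Finite.equivFin C.V).symm
  have g : Good (fun u v => C.adj (e u) (e v)) C.adj e :=
    ⟨fun _ _ h => h, fun a b h => ⟨e.symm a, e.symm b, by simpa using h, by simp, by simp⟩,
      fun u v h => e.injective h ▸ ReflTransGen.refl⟩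
  let t : Tk A (Nat.card C.V) :=
    { adj := fun u v => C.adj (e u) (e v)
      act := fun γ v => e.symm (C.act γ (e v))
      q := fun v => q (e v)
      refl := fun _ => C.refl _
      symm := fun _ _ => C.symm _ _
      one := fun v => by rw [C.one, e.symm_apply_apply]
      mul := fun a b v => by rw [C.mul, e.apply_symm_apply]
      hact := fun γ u v h => by simpa using C.hact γ _ _ h
      good := hq.good.comp g
      eqv := fun γ v => by rw [e.apply_symm_apply, hq.eqv] }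
  obtain ⟨r, hr, h⟩ := h ⟨⟨_, Nat.lt_succ_of_le hk⟩, t⟩
  exact ⟨_, Mor.comp (B := t.gg) ⟨g, fun γ v => e.apply_symm_apply _⟩ hr, h⟩

theorem conn_symm {α : Type} {r : α → α → Prop} (hr : ∀ u v, r u v → r v u) {S : α → Prop}
    {u v : α} (h : Conn r S u v) : Conn r S v u := by
  induction h with
  | refl => exact ReflTransGen.refl
  | tail _ hbc ih => exact (Conn.single (hr _ _ hbc.1) hbc.2.2 hbc.2.1).trans ih

theorem GG.inv (A : GG) (γ : Gam) (v : A.V) : A.act γ⁻¹ (A.act γ v) = v := by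
  rw [← A.mul, inv_mul_cancel, A.one]

theorem GG.inv' (A : GG) (γ : Gam) (v : A.V) : A.act γ (A.act γ⁻¹ v) = v := by
  rw [← A.mul, mul_inv_cancel, A.one]

/-- An extension in which adjacent points of an orbit differ by an element of the kernel. -/
theorem exists_sep (B : GG) : ∃ (C : GG) (ψ : C.V → B.V), Mor C B ψ ∧
    ∀ γ c, C.adj c (C.act γ c) → ∀ b, B.act γ b = b := by
  let Q := {f : B.V → B.V // Function.Surjective f}
  let σ : Gam → Q → Q := fun γ f =>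
    ⟨B.act γ ∘ f.1, Function.Surjective.comp (fun v => ⟨_, B.inv' γ v⟩) f.2⟩
  have s1 : σ 1 = id := funext fun f => Subtype.ext (funext fun _ => B.one _)
  have s2 : ∀ a b, σ (a * b) = σ a ∘ σ b := fun a b =>
    funext fun f => Subtype.ext (funext fun _ => B.mul _ _ _)
  let E : Q ⊕ Q × Q → Q ⊕ Q × Q → Prop := fun x y =>
    ∃ a b, x = .inl a ∧ (y = .inr (a, b) ∨ y = .inr (b, a))
  have hE : ∀ γ x y, E x y → E (x.map (σ γ) (Prod.map (σ γ) (σ γ)))
      (y.map (σ γ) (Prod.map (σ γ) (σ γ))) := by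
    rintro γ _ _ ⟨a, b, rfl, rfl | rfl⟩
    exacts [⟨σ γ a, σ γ b, rfl, Or.inl rfl⟩, ⟨σ γ a, σ γ b, rfl, Or.inr rfl⟩]
  let D : GG :=
    { V := Q ⊕ Q × Q
      fin := inferInstance
      adj := fun x y => x = y ∨ E x y ∨ E y x
      refl := fun _ => Or.inl rfl
      symm := fun _ _ h => h.imp Eq.symm Or.symm
      act := fun γ => Sum.map (σ γ) (Prod.map (σ γ) (σ γ))
      one := fun x => by simp [s1]
      mul := fun a b x => by rcases x with x | x <;> simp [s2, Prod.map]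
      hact := fun γ x y h => h.imp (congrArg _) (Or.imp (hE γ x y) (hE γ y x)) }
  let o : Q := ⟨id, Function.surjective_id⟩
  have c1 : ∀ a, Conn D.adj (fun _ => True) (.inl a) (.inl o) := fun a =>
    (Conn.single (r := D.adj) (v := .inr (a, o)) (Or.inr (Or.inl ⟨a, o, rfl, Or.inl rfl⟩)) trivial
      trivial).trans
      (Conn.single (r := D.adj) (Or.inr (Or.inr ⟨o, a, rfl, Or.inr rfl⟩)) trivial trivial)
  have c2 : ∀ x, Conn D.adj (fun _ => True) x (.inl o) := by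
    rintro (a | ⟨a, b⟩)
    · exact c1 a
    · exact (Conn.single (r := D.adj) (Or.inr (Or.inr ⟨a, b, rfl, Or.inl rfl⟩)) trivial
        trivial).trans (c1 a)
  refine ⟨prod B D, _, prod_fst B (D := D) (.inl o) fun u v => (c2 u).trans (conn_symm D.symm (c2 v)),
    fun γ c h b => ?_⟩
  obtain ⟨a, ha⟩ : ∃ a, a = σ γ a := by
    obtain ⟨_, x | x⟩ := c
    · rcases h.2 with h | ⟨a, b, -, h | h⟩ | ⟨a, b, -, h | h⟩
      · exact ⟨x, Sum.inl.inj h⟩
      all_goals cases h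
    · rcases h.2 with h | ⟨a, b, h, -⟩ | ⟨a, b, h, -⟩
      · exact ⟨x.1, congrArg Prod.fst (Sum.inr.inj h)⟩
      all_goals cases h
  obtain ⟨v, rfl⟩ := a.2 b
  exact (congrFun (congrArg Subtype.val ha) v).symm

/-- Subdivision by long paths. -/
def sub6 (A : GG) : GG where
  V := {p : A.V × A.V // A.adj p.1 p.2} × Fin 6
  fin := inferInstance
  adj x y := (x.2 = 0 ∧ y.2 = 0 ∧ x.1.1.1 = y.1.1.1) ∨
    (x.1 = y.1 ∧ x.2.1 ≤ y.2.1 + 1 ∧ y.2.1 ≤ x.2.1 + 1) ∨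
    (x.2 = 5 ∧ y.2 = 5 ∧ x.1.1.1 = y.1.1.2 ∧ x.1.1.2 = y.1.1.1)
  refl _ := Or.inr (Or.inl ⟨rfl, by omega, by omega⟩)
  symm _ _ h := h.imp (fun h => ⟨h.2.1, h.1, h.2.2.symm⟩) (Or.imp
    (fun h => ⟨h.1.symm, h.2.2, h.2.1⟩) fun h => ⟨h.2.1, h.1, h.2.2.2.symm, h.2.2.1.symm⟩)
  act γ x := (⟨(A.act γ x.1.1.1, A.act γ x.1.1.2), A.hact _ _ _ x.1.2⟩, x.2)
  one _ := Prod.ext (Subtype.ext (Prod.ext (A.one _) (A.one _))) rfl
  mul _ _ _ := Prod.ext (Subtype.ext (Prod.ext (A.mul _ _ _) (A.mul _ _ _))) rfl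
  hact γ _ _ h := h.imp (fun h => ⟨h.1, h.2.1, congrArg (A.act γ) h.2.2⟩) (Or.imp
    (fun h => ⟨by simp only [h.1], h.2⟩)
    fun h => ⟨h.1, h.2.1, congrArg (A.act γ) h.2.2.1, congrArg (A.act γ) h.2.2.2⟩)

theorem mor_sub6 (A : GG) : Mor (sub6 A) A fun x => x.1.1.1 := by
  refine ⟨⟨fun u v h => ?_, fun a b h => ⟨(⟨(a, b), h⟩, 5), (⟨(b, a), A.symm _ _ h⟩, 5),
    Or.inr (Or.inr ⟨rfl, rfl, rfl, rfl⟩), rfl, rfl⟩, fun u v h => ?_⟩, fun _ _ => rfl⟩
  · rcases h with h | h | h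
    · exact h.2.2 ▸ A.refl _
    · exact h.1 ▸ A.refl _
    · exact h.2.2.2 ▸ u.1.2
  · have : ∀ p (s : Fin 6), p.1.1 = u.1.1.1 →
        Conn (sub6 A).adj (fun x => x.1.1.1 = u.1.1.1) (p, 0) (p, s) := fun p s hp => by
      induction s using Fin.induction with
      | zero => exact ReflTransGen.refl
      | succ i ih => exact ih.trans (Conn.single (Or.inr (Or.inl ⟨rfl, by simp; omega, by simp⟩)) hp hp)
    exact ((conn_symm (sub6 A).symm (this u.1 u.2 rfl)).trans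
      (Conn.single (v := (v.1, 0)) (Or.inl ⟨rfl, rfl, h⟩) rfl h.symm)).trans (this v.1 v.2 h.symm)

theorem sub6_tri (A : GG) (u v w : (sub6 A).V) (h : (sub6 A).adj u v) (h' : (sub6 A).adj v w) :
    u.1.1.1 = v.1.1.1 ∨ v.1.1.1 = w.1.1.1 ∨ u.1.1.1 = w.1.1.1 := by
  rcases h with h | h | h
  · exact Or.inl h.2.2
  · exact Or.inl (by rw [h.1])
  · rcases h' with h' | h' | h'
    · exact Or.inr (Or.inl h'.2.2)
    · exact Or.inr (Or.inl (by rw [h'.1]))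
    · exact Or.inr (Or.inr (h.2.2.1.trans h'.2.2.2))

/-- The label of a vertex of the subdivision cut at the mark `2 i + 1`. -/
def lbl {A : GG} (i : Fin 3) (x : (sub6 A).V) : Set A.V :=
  if x.2.1 < 2 * i.1 + 1 then {x.1.1.1} else {x.1.1.1, x.1.1.2}

theorem mem_lbl {A : GG} (i : Fin 3) (x : (sub6 A).V) : x.1.1.1 ∈ lbl i x := by
  unfold lbl
  split_ifs <;> simp

theorem lbl_adj {A : GG} {i : Fin 3} {x : (sub6 A).V} {a : A.V} (h : a ∈ lbl i x) :
    A.adj x.1.1.1 a := by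
  unfold lbl at h
  split_ifs at h
  · exact h ▸ A.refl _
  · rcases h with rfl | rfl
    exacts [A.refl _, x.1.2]

theorem lbl_eq {A : GG} {i : Fin 3} {x y : (sub6 A).V} (h : (sub6 A).adj x y)
    (hx : x.2.1 ≠ 2 * i.1 + 1) (hy : y.2.1 ≠ 2 * i.1 + 1) : lbl i x = lbl i y := by
  unfold lbl
  have := i.2
  rcases h with h | h | h
  · rw [if_pos (by omega), if_pos (by omega), h.2.2]
  · rw [h.1]
    exact if_congr (by omega) rfl rfl
  · rw [if_neg (by omega), if_neg (by omega), h.2.2.1, h.2.2.2, Set.pair_comm]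

theorem mark_le {A : GG} {x y : (sub6 A).V} (h : (sub6 A).adj x y) : x.2.1 ≤ y.2.1 + 1 := by
  rcases h with h | h | h <;> omega

/-- Doubling every vertex. -/
def tw (A : GG) : GG :=
  { twin A.toFG with
    act := fun γ x => (A.act γ x.1, x.2)
    one := fun _ => Prod.ext (A.one _) rfl
    mul := fun _ _ _ => Prod.ext (A.mul _ _ _) rfl
    hact := fun _ _ _ h => A.hact _ _ _ h }

theorem mor_tw (A : GG) : Mor (tw A) A Prod.fst := ⟨good_twin _, fun _ _ => rfl⟩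

theorem near_conn {A : FG} {a x y : A.V} (hx : Near A a x) (hy : Near A a y) :
    Conn A.adj (Near A a) x y := by
  have : ∀ x, Near A a x → Conn A.adj (Near A a) a x := fun x hx =>
    let ⟨z, h1, h2⟩ := hx
    (Conn.single h1 ⟨_, A.refl _, A.refl _⟩ ⟨_, h1, A.refl _⟩).trans
      (Conn.single h2 ⟨_, h1, A.refl _⟩ hx)
  exact (conn_symm A.symm (this x hx)).trans (this y hy)

theorem near_symm {A : FG} {a x : A.V} (h : Near A a x) : Near A x a :=
  let ⟨z, h1, h2⟩ := h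
  ⟨z, A.symm _ _ h2, A.symm _ _ h1⟩

section pin

variable {A B C : GG} {φ : B.V → A.V} {ψ : C.V → A.V} (hφ : Mor B A φ) (hψ : Mor C A ψ)
  (c : C.V × Bool) (b : B.V)

/-- The correspondence that pins the orbit of `c` to the orbit of `b`. -/
def gpin : GG where
  V := {p : (C.V × Bool) × B.V // Near A.toFG (ψ p.1.1) (φ p.2) ∧
    ∀ γ, p.1 = (C.act γ c.1, c.2) → p.2 = B.act γ b}
  fin := inferInstance
  adj x y := C.adj x.1.1.1 y.1.1.1 ∧ B.adj x.1.2 y.1.2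
  refl _ := ⟨C.refl _, B.refl _⟩
  symm _ _ h := ⟨C.symm _ _ h.1, B.symm _ _ h.2⟩
  act γ x := ⟨((C.act γ x.1.1.1, x.1.1.2), B.act γ x.1.2), by
    obtain ⟨z, h1, h2⟩ := x.2.1
    refine ⟨⟨A.act γ z, ?_, ?_⟩, fun γ' h => ?_⟩
    · exact hψ.eqv _ _ ▸ A.hact γ _ _ h1
    · exact hφ.eqv _ _ ▸ A.hact γ _ _ h2
    · obtain ⟨h3, h4⟩ := Prod.ext_iff.1 h
      have h5 : C.act γ x.1.1.1 = C.act γ' c.1 := h3
      rw [x.2.2 (γ⁻¹ * γ') (Prod.ext (by rw [C.mul, ← h5, C.inv]) h4), B.mul, B.inv']⟩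
  one _ := Subtype.ext (Prod.ext (Prod.ext (C.one _) rfl) (B.one _))
  mul _ _ _ := Subtype.ext (Prod.ext (Prod.ext (C.mul _ _ _) rfl) (B.mul _ _ _))
  hact _ _ _ h := ⟨C.hact _ _ _ h.1, B.hact _ _ _ h.2⟩

theorem gpin_fst (hs : ∀ γ c, C.adj c (C.act γ c) → ∀ b, B.act γ b = b)
    (hab : A.adj (ψ c.1) (φ b)) : Mor (gpin hφ hψ c b) (tw C) fun x => x.1.1 := by
  have ok : ∀ γ (x : C.V × Bool), C.adj x.1 (C.act γ c.1) → Near A.toFG (ψ x.1) (φ (B.act γ b)) ∧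
      ∀ γ', x = (C.act γ' c.1, c.2) → B.act γ b = B.act γ' b := fun γ x h => by
    refine ⟨⟨_, hψ.good.hom _ _ h, ?_⟩, fun γ' e => ?_⟩
    · rw [hψ.eqv, hφ.eqv]
      exact A.hact γ _ _ hab
    · have := hs (γ * γ'⁻¹) x.1 (by rwa [C.mul, e, C.inv, ← show x.1 = _ from congrArg Prod.fst e])
        (B.act γ' b)
      rwa [B.mul, B.inv] at this
  refine ⟨⟨fun _ _ h => h.1, fun x y h => ?_, ?_⟩, fun _ _ => rfl⟩
  · by_cases h1 : ∃ γ, x = (C.act γ c.1, c.2) ∨ y = (C.act γ c.1, c.2)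
    · obtain ⟨γ, h1⟩ := h1
      refine ⟨⟨(x, B.act γ b), ok γ x ?_⟩, ⟨(y, B.act γ b), ok γ y ?_⟩, ⟨h, B.refl _⟩, rfl, rfl⟩
      · rcases h1 with rfl | rfl
        exacts [C.refl _, h]
      · rcases h1 with rfl | rfl
        exacts [C.symm _ _ h, C.refl _]
    · obtain ⟨b', hb'⟩ := hφ.surj (ψ x.1)
      exact ⟨⟨(x, b'), ⟨_, A.refl _, hb' ▸ A.refl _⟩, fun γ h => absurd ⟨γ, Or.inl h⟩ h1⟩,
        ⟨(y, b'), ⟨_, hψ.good.hom _ _ (C.symm _ _ h), hb' ▸ A.refl _⟩,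
          fun γ h => absurd ⟨γ, Or.inr h⟩ h1⟩, ⟨h, B.refl _⟩, rfl, rfl⟩
  · rintro ⟨⟨x, b1⟩, h1, h1'⟩ ⟨⟨_, b2⟩, h2, h2'⟩ ⟨⟩
    by_cases h : ∃ γ, x = (C.act γ c.1, c.2)
    · obtain ⟨γ, h⟩ := h
      obtain rfl : b1 = b2 := (h1' γ h).trans (h2' γ h).symm
      exact ReflTransGen.refl
    · exact conn_map (s := (gpin hφ hψ c b).adj) (S' := fun y => y.1.1 = x)
        (fun y (hy : Near A.toFG (ψ x.1) (φ y)) => ⟨(x, y), hy, fun γ e => absurd ⟨γ, e⟩ h⟩)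
        (fun _ _ _ _ h => ⟨C.refl _, h⟩) (fun _ _ => rfl)
        (hφ.good.conn_preimage (near_conn h1 h2) h1 b1 b2 rfl rfl) h1 h2

theorem gpin_snd : Mor (gpin hφ hψ c b) B fun x => x.1.2 := by
  have hne : ∀ (z : C.V) (y : B.V) γ, (z, !c.2) = (C.act γ c.1, c.2) → y = B.act γ b :=
    fun z y γ h => absurd (congrArg Prod.snd h) (by simp)
  refine ⟨⟨fun _ _ h => h.2, fun x y h => ?_, ?_⟩, fun _ _ => rfl⟩
  · obtain ⟨z, hz⟩ := hψ.surj (φ x)
    exact ⟨⟨((z, !c.2), x), ⟨_, A.refl _, hz ▸ A.refl _⟩, hne _ _⟩,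
      ⟨((z, !c.2), y), ⟨_, A.refl _, hz ▸ hφ.good.hom _ _ h⟩, hne _ _⟩, ⟨C.refl _, h⟩, rfl, rfl⟩
  · rintro ⟨⟨x, y⟩, h1, h1'⟩ ⟨⟨x', _⟩, h2, h2'⟩ ⟨⟩
    have := conn_map (s := (gpin hφ hψ c b).adj) (S' := fun p => p.1.2 = y)
      (fun z (hz : Near A.toFG (φ y) (ψ z)) => ⟨((z, !c.2), y), near_symm hz, hne _ _⟩)
      (fun _ _ _ _ h => ⟨h, B.refl _⟩) (fun _ _ => rfl)
      (hψ.good.conn_preimage (near_conn (near_symm h1) (near_symm h2)) (near_symm h1) _ _ rfl rfl)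
      (near_symm h1) (near_symm h2)
    have k : ∀ u v : (gpin hφ hψ c b).V, u.1.1.1 = v.1.1.1 → u.1.2 = y → v.1.2 = y →
        Conn (gpin hφ hψ c b).adj (fun p => p.1.2 = y) u v := fun u v h hu hv =>
      Conn.single (r := (gpin hφ hψ c b).adj) ⟨h ▸ C.refl _, by rw [hu, hv]; exact B.refl _⟩ hu hv
    exact ((k ⟨(x, y), h1, h1'⟩ ⟨((x.1, !c.2), y), h1, hne _ _⟩ rfl rfl rfl).trans this).trans
      (k ⟨((x'.1, !c.2), y), h2, hne _ _⟩ ⟨(x', y), h2, h2'⟩ rfl rfl rfl)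

end pin

end Pool.Agent.Lib.PD66
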