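import Mathlib

/-! Continuous logarithms and local rigidity of products of one-dimensional continua. -/

namespace Pool.Agent.Lib.PD66

open Topology Filter Set Complex

/-- `f` has a continuous logarithm. -/
def HasLog {L : Type} [TopologicalSpace L] (f : L → ℂ) : Prop :=
  ∃ l : L → ℂ, Continuous l ∧ ∀ s, exp (l s) = f s

/-- Complex functions are approximable by nonvanishing ones. -/
def AP (X : Type) [TopologicalSpace X] : Prop :=
  ∀ g : X → ℂ, Continuous g → ∀ ε > 0, ∃ R : X → ℂ, Continuous R ∧ ∀ x, R x ≠ 0 ∧ ‖R x - g x‖ < ε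

/-- Every neighbourhood holds an essential continuum. -/
def EL (Y : Type) [TopologicalSpace Y] : Prop :=
  ∀ y : Y, ∀ W ∈ 𝓝 y, ∃ L ⊆ W, IsCompact L ∧ IsConnected L ∧
    ∃ r : Y → ℂ, Continuous r ∧ (∀ y, r y ≠ 0) ∧ ¬ HasLog fun s : L => r s

variable {L T X Y : Type} [TopologicalSpace L] [TopologicalSpace T] [TopologicalSpace X]
  [TopologicalSpace Y]

theorem slit_of_near {a b : ℂ} (h : ‖b - a‖ < ‖a‖) : a ≠ 0 ∧ b / a ∈ slitPlane := by
  have h0 : a ≠ 0 := norm_pos_iff.1 ((norm_nonneg _).trans_lt h)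
  refine ⟨h0, ball_one_subset_slitPlane ?_⟩
  rw [mem_ball_iff_norm, div_sub_one h0, norm_div, div_lt_one (norm_pos_iff.2 h0)]
  exact h

theorem near_iff {f g : L → ℂ} (hf : Continuous f) (hg : Continuous g)
    (h : ∀ s, ‖g s - f s‖ < ‖f s‖) : HasLog g ↔ HasLog f := by
  have c : Continuous fun s => log (g s / f s) :=
    (hg.div hf fun s => (slit_of_near (h s)).1).clog fun s => (slit_of_near (h s)).2
  have e : ∀ s, exp (log (g s / f s)) = g s / f s := fun s =>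
    exp_log (slitPlane_ne_zero (slit_of_near (h s)).2)
  refine ⟨fun ⟨l, h1, h2⟩ => ⟨_, h1.sub c, fun s => ?_⟩, fun ⟨l, h1, h2⟩ => ⟨_, h1.add c, fun s => ?_⟩⟩
  · have h3 := (slit_of_near (h s)).1
    have h4 : g s ≠ 0 := h2 s ▸ exp_ne_zero _
    rw [Pi.sub_apply, exp_sub, h2, e]
    field_simp
  · have h3 := (slit_of_near (h s)).1
    rw [Pi.add_apply, exp_add, h2, e]
    field_simp

theorem hasLog_of_slit {f : L → ℂ} (hf : Continuous f) (h : ∀ s, f s ∈ slitPlane) : HasLog f :=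
  ⟨_, hf.clog h, fun s => exp_log (slitPlane_ne_zero (h s))⟩

theorem HasLog.comp {f : L → ℂ} (h : HasLog f) {k : T → L} (hk : Continuous k) :
    HasLog fun t => f (k t) :=
  let ⟨_, h1, h2⟩ := h
  ⟨_, h1.comp hk, fun _ => h2 _⟩

theorem tube [CompactSpace L] {G : L × T → ℂ} (hG : Continuous G) (h0 : ∀ p, G p ≠ 0) (t : T) :
    ∀ᶠ t' in 𝓝 t, ∀ s, ‖G (s, t') - G (s, t)‖ < ‖G (s, t)‖ :=
  (isCompact_univ.eventually_forall_of_forall_eventually (x₀ := t)
    (P := fun t' s => ‖G (s, t') - G (s, t)‖ < ‖G (s, t)‖) fun s _ =>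
      (isOpen_lt (by fun_prop) (by fun_prop)).mem_nhds (by simpa using h0 _)).mono
    fun _ h s => h s trivial

theorem hl_const [CompactSpace L] [PreconnectedSpace T] {G : L × T → ℂ} (hG : Continuous G)
    (h0 : ∀ p, G p ≠ 0) {t : T} (h : HasLog fun s => G (s, t)) (t' : T) :
    HasLog fun s => G (s, t') := by
  have : IsLocallyConstant fun t => HasLog fun s => G (s, t) :=
    (IsLocallyConstant.iff_eventually_eq _).2 fun t => (tube hG h0 t).mono fun t' h =>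
      propext (near_iff (by fun_prop) (by fun_prop) h)
  exact this.apply_eq_of_preconnectedSpace t t' ▸ h

theorem hl_prod [CompactSpace L] [PreconnectedSpace L] [PreconnectedSpace T] {G : L × T → ℂ}
    (hG : Continuous G) (h0 : ∀ p, G p ≠ 0) {s₀ : L} {t₀ : T} (h1 : HasLog fun s => G (s, t₀))
    (h2 : HasLog fun t => G (s₀, t)) : HasLog G := by
  obtain ⟨μ, m1, m2⟩ := h2
  have : ∀ t, ∃ l : L → ℂ, Continuous l ∧ (∀ s, exp (l s) = G (s, t)) ∧ l s₀ = μ t := fun t => by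
    obtain ⟨l, l1, l2⟩ := hl_const hG h0 h1 t
    refine ⟨fun s => l s - l s₀ + μ t, by fun_prop, fun s => ?_, by ring⟩
    have := h0 (s₀, t)
    rw [exp_add, exp_sub, l2, l2, m2]
    field_simp
  choose l l1 l2 l3 using this
  refine ⟨fun p => l p.2 p.1, continuous_iff_continuousAt.2 fun p => ?_, fun p => l2 _ _⟩
  have c : ContinuousAt (fun q : L × T => l p.2 q.1 + log (G q / G (q.1, p.2)) -
      log (G (s₀, q.2) / G (s₀, p.2)) + μ q.2 - μ p.2) p := by
    have a1 : ContinuousAt (fun q : L × T => log (G q / G (q.1, p.2))) p :=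
      (hG.div (by fun_prop) fun _ => h0 _).continuousAt.clog (by simp [h0])
    have a2 : ContinuousAt (fun q : L × T => log (G (s₀, q.2) / G (s₀, p.2))) p :=
      ContinuousAt.clog (by fun_prop) (by simp [h0])
    have := l1 p.2
    fun_prop
  refine c.congr ?_
  filter_upwards [continuous_snd.continuousAt.eventually (tube hG h0 p.2)] with q hq
  refine congrFun (isCoveringMap_exp.eq_of_comp_eq (g₁ := fun s => l p.2 s +
    log (G (s, q.2) / G (s, p.2)) - log (G (s₀, q.2) / G (s₀, p.2)) + μ q.2 - μ p.2) (g₂ := l q.2)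
    ?_ (l1 _) (funext fun s => Subtype.ext ?_) s₀ (by simp only [l3]; ring)) q.1
  · have := l1 p.2
    have a1 : Continuous fun s => log (G (s, q.2) / G (s, p.2)) :=
      (Continuous.div (by fun_prop) (by fun_prop) fun _ => h0 _).clog
        fun s => (slit_of_near (hq s)).2
    fun_prop
  · have a1 := h0 (s, p.2)
    have a2 := h0 (s₀, p.2)
    have a3 := h0 (s₀, q.2)
    simp only [Function.comp_apply, exp_add, exp_sub, l2, m2, exp_log (div_ne_zero (h0 _) (h0 _))]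
    field_simp

theorem arg_lt {S : Set L} (hS : IsPreconnected S) {θ : L → ℝ} (hθ : Continuous θ) {u : ℝ → ℝ}
    (hu : ∀ x, u (x - Real.pi) = -u x) (h : ∀ s ∈ S, 0 < u (θ s)) {p q : L} (hp : p ∈ S)
    (hq : q ∈ S) (hs : 0 < Real.sin (θ q - θ p)) : θ p < θ q := by
  by_contra hn
  by_cases h1 : θ q ≤ θ p - Real.pi
  · obtain ⟨s, h2, h3⟩ := hS.intermediate_value hq hp hθ.continuousOn
      ⟨h1, sub_le_self _ Real.pi_pos.le⟩
    have := h s h2
    rw [h3, hu] at this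
    linarith [h p hp]
  · exact absurd hs (not_lt.2 (Real.sin_nonpos_of_nonpos_of_neg_pi_le (by linarith) (by linarith)))

/-- Four continua running round the origin. -/
theorem quad {f : L → ℂ} {S₀ S₁ S₂ S₃ : Set L} (c₀ : IsPreconnected S₀) (c₁ : IsPreconnected S₁)
    (c₂ : IsPreconnected S₂) (c₃ : IsPreconnected S₃) (h₀ : ∀ s ∈ S₀, 0 < (f s).re)
    (h₁ : ∀ s ∈ S₁, 0 < (f s).im) (h₂ : ∀ s ∈ S₂, (f s).re < 0) (h₃ : ∀ s ∈ S₃, (f s).im < 0)
    (n₀ : (S₃ ∩ S₀).Nonempty) (n₁ : (S₀ ∩ S₁).Nonempty) (n₂ : (S₁ ∩ S₂).Nonempty)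
    (n₃ : (S₂ ∩ S₃).Nonempty) : ¬ HasLog f := by
  rintro ⟨l, hl, e⟩
  have hθ : Continuous fun s => (l s).im := by fun_prop
  have g₀ : ∀ s ∈ S₀, 0 < Real.cos (l s).im := fun s hs => by
    have := h₀ s hs
    rw [← e, exp_re] at this
    exact (mul_pos_iff_of_pos_left (Real.exp_pos _)).1 this
  have g₁ : ∀ s ∈ S₁, 0 < Real.sin (l s).im := fun s hs => by
    have := h₁ s hs
    rw [← e, exp_im] at this
    exact (mul_pos_iff_of_pos_left (Real.exp_pos _)).1 this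
  have g₂ : ∀ s ∈ S₂, 0 < -Real.cos (l s).im := fun s hs => by
    have := h₂ s hs
    rw [← e, exp_re] at this
    nlinarith [Real.exp_pos (l s).re]
  have g₃ : ∀ s ∈ S₃, 0 < -Real.sin (l s).im := fun s hs => by
    have := h₃ s hs
    rw [← e, exp_im] at this
    nlinarith [Real.exp_pos (l s).re]
  obtain ⟨p₀, a₀, b₀⟩ := n₀
  obtain ⟨p₁, a₁, b₁⟩ := n₁
  obtain ⟨p₂, a₂, b₂⟩ := n₂
  obtain ⟨p₃, a₃, b₃⟩ := n₃
  have e₀ := arg_lt c₀ hθ Real.cos_sub_pi g₀ b₀ a₁ (by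
    rw [Real.sin_sub]
    nlinarith [mul_pos (g₁ _ b₁) (g₀ _ b₀), mul_pos (g₀ _ a₁) (g₃ _ a₀)])
  have e₁ := arg_lt c₁ hθ Real.sin_sub_pi g₁ b₁ a₂ (by
    rw [Real.sin_sub]
    nlinarith [mul_pos (g₁ _ a₂) (g₀ _ a₁), mul_pos (g₂ _ b₂) (g₁ _ b₁)])
  have e₂ := arg_lt c₂ hθ (u := fun x => -Real.cos x) (fun x => by rw [Real.cos_sub_pi]) g₂ b₂ a₃ (by
    rw [Real.sin_sub]
    nlinarith [mul_pos (g₃ _ b₃) (g₂ _ b₂), mul_pos (g₂ _ a₃) (g₁ _ a₂)])
  have e₃ := arg_lt c₃ hθ (u := fun x => -Real.sin x) (fun x => by rw [Real.sin_sub_pi]) g₃ b₃ a₀ (by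
    rw [Real.sin_sub]
    nlinarith [mul_pos (g₃ _ a₀) (g₂ _ a₃), mul_pos (g₀ _ b₀) (g₃ _ b₃)])
  linarith

theorem ap_of_dim [CompactSpace X] [T2Space X]
    (h : ∀ (n : ℕ) (U : Fin n → Set X), (∀ i, IsOpen (U i)) → (⋃ i, U i) = univ →
      ∃ (m : ℕ) (V : Fin m → Set X), (∀ j, IsOpen (V j)) ∧ (⋃ j, V j) = univ ∧
        (∀ j, ∃ i, V j ⊆ U i) ∧
        ∀ (x : X) (a b c : Fin m), x ∈ V a → x ∈ V b → x ∈ V c → a = b ∨ a = c ∨ b = c) :
    AP X := by
  intro g hg ε hε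
  obtain ⟨t, -, ht, hc⟩ := finite_cover_balls_of_compact (isCompact_range hg) (half_pos hε)
  obtain ⟨n, c, -, rfl⟩ := ht.fin_param
  obtain ⟨m, V, v1, v2, v3, v4⟩ := h n (fun i => g ⁻¹' Metric.ball (c i) (ε / 2))
    (fun i => Metric.isOpen_ball.preimage hg) (eq_univ_of_forall fun x => by
      simpa using hc (mem_range_self x))
  choose i hi using v3
  obtain ⟨ρ, hρ⟩ := PartitionOfUnity.exists_isSubordinate isClosed_univ V v1 v2.ge
  have hV : ∀ j x, ρ j x ≠ 0 → x ∈ V j := fun j x hx => hρ j (subset_tsupport _ hx)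
  obtain ⟨w, w1, w2⟩ : ∃ w ∈ Metric.ball (0 : ℂ) (ε / 2),
      w ∉ ⋃ p : Fin m × Fin m, (line[ℝ, c (i p.1), c (i p.2)] : Set ℂ) := by
    by_contra hn
    push Not at hn
    refine (Metric.measure_ball_pos MeasureTheory.volume (0 : ℂ) (half_pos hε)).ne'
      (MeasureTheory.measure_mono_null hn (MeasureTheory.measure_iUnion_null fun p =>
        MeasureTheory.Measure.addHaar_affineSubspace _ _ fun e => ?_))
    have := collinear_pair ℝ (c (i p.1)) (c (i p.2))
    rw [Collinear, ← direction_affineSpan, e, AffineSubspace.direction_top, rank_top,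
      rank_real_complex] at this
    norm_num at this
  refine ⟨fun x => (∑ᶠ j, ρ j x • c (i j)) - w,
    (ρ.continuous_finsum_smul fun _ _ _ => continuousAt_const).sub continuous_const,
    fun x => ⟨fun e => w2 ?_, ?_⟩⟩
  · obtain ⟨j, k, hjk⟩ : ∃ j k, ∀ a, x ∈ V a → a = j ∨ a = k := by
      obtain ⟨j, hj⟩ := mem_iUnion.1 (v2 ▸ mem_univ x)
      by_cases h1 : ∃ k, x ∈ V k ∧ j ≠ k
      · obtain ⟨k, h2, h3⟩ := h1
        exact ⟨j, k, fun a ha => by have := v4 x a j k ha hj h2; tauto⟩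
      · push Not at h1
        exact ⟨j, j, fun a ha => Or.inl (h1 a ha).symm⟩
    rw [← sub_eq_zero.1 e]
    refine mem_iUnion.2 ⟨(j, k), ρ.finsum_smul_mem_convex (g := fun j _ => c (i j)) (mem_univ x)
      (fun a ha => ?_) (AffineSubspace.convex _)⟩
    rcases hjk a (hV a x ha) with rfl | rfl
    exacts [left_mem_affineSpan_pair _ _ _, right_mem_affineSpan_pair _ _ _]
  · have := ρ.finsum_smul_mem_convex (g := fun j _ => c (i j)) (mem_univ x)
      (fun a ha => Metric.mem_ball_comm.1 (hi a (hV a x ha))) (convex_ball (g x) (ε / 2))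
    rw [mem_ball_iff_norm] at this
    rw [sub_right_comm]
    exact (norm_sub_le _ _).trans_lt (by linarith [mem_ball_zero_iff.1 w1])

end Pool.Agent.Lib.PD66
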