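import Pool.Agent.Lib.PD66.Log

/-! Local factor rigidity and the two dimension estimates. -/

namespace Pool.Agent.Lib.PD66

open Topology Filter Set Complex

variable {L T X Y : Type} [TopologicalSpace L] [TopologicalSpace T] [TopologicalSpace X]
  [TopologicalSpace Y]

theorem key [CompactSpace Y] [T2Space Y] (hA : AP Y) [CompactSpace L] [PreconnectedSpace T]
    {k : L × T → Y} (hk : Continuous k) {t t' : T} (hd : ∀ s s', k (s, t) ≠ k (s', t'))
    {ρ : Y → ℂ} (hρ : ContinuousOn ρ (range fun s => k (s, t))) (h0 : ∀ s, ρ (k (s, t)) ≠ 0) :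
    HasLog fun s => ρ (k (s, t)) := by
  have c1 : IsClosed (range fun s => k (s, t)) := (isCompact_range (by fun_prop)).isClosed
  have c2 : IsClosed (range fun s => k (s, t')) := (isCompact_range (by fun_prop)).isClosed
  have c3 : Continuous fun s => ρ (k (s, t)) :=
    hρ.comp_continuous (by fun_prop) fun s => mem_range_self s
  obtain ⟨g, hg⟩ := ContinuousMap.exists_restrict_eq c1 ⟨_, hρ.domRestrict⟩
  obtain ⟨φ, p0, p1, -⟩ := exists_continuous_zero_one_of_isClosed c1 c2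
    (Set.disjoint_left.2 fun _ ⟨s, h⟩ ⟨s', h'⟩ => hd s s' (h.trans h'.symm))
  obtain ⟨δ, hδ, hδ'⟩ := isCompact_univ.exists_forall_le' (f := fun s => ‖ρ (k (s, t))‖)
    (a := 0) c3.norm.continuousOn fun s _ => norm_pos_iff.2 (h0 s)
  obtain ⟨R, r1, r2⟩ := hA (fun y => (1 - φ y) * g y + φ y) (by fun_prop) (min δ 1) (by positivity)
  have l1 : HasLog fun s => R (k (s, t')) :=
    (near_iff (f := fun _ => 1) continuous_const (by fun_prop) fun s => by
      simpa [p1 (mem_range_self s)] using (r2 (k (s, t'))).2.trans_le (min_le_right _ _)).2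
      ⟨fun _ => 0, continuous_const, fun _ => exp_zero⟩
  refine (near_iff c3 (by fun_prop) fun s => ?_).1
    (hl_const (G := fun p => R (k p)) (by fun_prop) (fun p => (r2 _).1) l1 t)
  have e : g (k (s, t)) = ρ (k (s, t)) := congr($hg ⟨_, mem_range_self s⟩)
  simpa [p0 (mem_range_self s), e] using
    (r2 (k (s, t))).2.trans_le ((min_le_left _ _).trans (hδ' s trivial))

theorem half [CompactSpace Y] [T2Space Y] (hA : AP Y) (hE : EL Y) {e : Y × Y → Y × Y}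
    {ι : Y × Y → Y} {U V W₁ W₂ : Set Y} (hU : IsOpen U) (hV : IsPreconnected V)
    (hc : ContinuousOn e (U ×ˢ V)) (hι : ContinuousOn ι (W₁ ×ˢ W₂))
    (hm : ∀ u ∈ U, ∀ v ∈ V, e (u, v) ∈ W₁ ×ˢ W₂ ∧ ι (e (u, v)) = u) {u : Y} (hu : u ∈ U) :
    (∀ v ∈ V, ∀ v' ∈ V, (e (u, v)).1 = (e (u, v')).1) ∨
      ∀ v ∈ V, ∀ v' ∈ V, (e (u, v)).2 = (e (u, v')).2 := by
  by_contra hn
  push Not at hn
  obtain ⟨⟨v, hv, v', hv', n1⟩, a, ha, b, hb, n2⟩ := hn
  obtain ⟨w, hw, n3⟩ : ∃ w ∈ V, (e (u, v)).2 ≠ (e (u, w)).2 := by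
    by_contra h
    push Not at h
    exact n2 ((h a ha).symm.trans (h b hb))
  have ca : ∀ v ∈ V, ContinuousAt (fun s => e (s, v)) u := fun v hv =>
    (hc.comp (f := fun s => (s, v)) (s := U) (by fun_prop) fun s hs => ⟨hs, hv⟩).continuousAt
      (hU.mem_nhds hu)
  obtain ⟨O₁, h1, O₂, h2, d1⟩ := (disjoint_nhds_nhds.2 n1).exists_mem_filter_basis
    (Filter.basis_sets _) (Filter.basis_sets _)
  obtain ⟨O₃, h3, O₄, h4, d2⟩ := (disjoint_nhds_nhds.2 n3).exists_mem_filter_basis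
    (Filter.basis_sets _) (Filter.basis_sets _)
  obtain ⟨K, hK, k1, k2, r, r1, r2, r3⟩ := hE u _ (inter_mem (hU.mem_nhds hu) (inter_mem
    (inter_mem ((ca v hv).fst h1) ((ca v' hv').fst h2))
    (inter_mem ((ca v hv).snd h3) ((ca w hw).snd h4))))
  have := isCompact_iff_compactSpace.1 k1
  have := Subtype.preconnectedSpace k2.isPreconnected
  have := Subtype.preconnectedSpace hV
  obtain ⟨s₀, hs₀⟩ := k2.nonempty
  have ck : Continuous fun p : K × V => e (p.1, p.2) :=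
    hc.comp_continuous (by fun_prop) fun p => ⟨(hK p.1.2).1, p.2.2⟩
  have cv : Continuous fun s : K => e (s, v) :=
    hc.comp_continuous (by fun_prop) fun s => ⟨(hK s.2).1, hv⟩
  have mv : ∀ s : K, e (s, v) ∈ W₁ ×ˢ W₂ := fun s => (hm _ (hK s.2).1 v hv).1
  have l1 := key hA ck.fst (t := ⟨v, hv⟩) (t' := ⟨v', hv'⟩)
    (fun s s' h => d1.ne_of_mem (hK s.2).2.1.1 (hK s'.2).2.1.2 h)
    (ρ := fun y => r (ι (y, (e (s₀, v)).2)))
    (r1.comp_continuousOn (hι.comp (by fun_prop) fun _ ⟨s, h⟩ => ⟨h ▸ (mv s).1, (mv ⟨s₀, hs₀⟩).2⟩))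
    fun _ => r2 _
  have l2 := key hA ck.snd (t := ⟨v, hv⟩) (t' := ⟨w, hw⟩)
    (fun s s' h => d2.ne_of_mem (hK s.2).2.2.1 (hK s'.2).2.2.2 h)
    (ρ := fun y => r (ι ((e (s₀, v)).1, y)))
    (r1.comp_continuousOn (hι.comp (by fun_prop) fun _ ⟨s, h⟩ => ⟨(mv ⟨s₀, hs₀⟩).1, h ▸ (mv s).2⟩))
    fun _ => r2 _
  have l3 := (hl_prod (G := fun p : K × K => r (ι ((e (p.1, v)).1, (e (p.2, v)).2)))
    (r1.comp (hι.comp_continuous ((cv.comp continuous_fst).fst.prodMk (cv.comp continuous_snd).snd)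
      fun p => ⟨(mv p.1).1, (mv p.2).2⟩)) (fun _ => r2 _)
    (s₀ := ⟨s₀, hs₀⟩) (t₀ := ⟨s₀, hs₀⟩) l1 l2).comp (k := fun s : K => (s, s)) (by fun_prop)
  refine r3 ?_
  simpa only [Prod.mk.eta, fun s : K => (hm _ (hK s.2).1 v hv).2] using l3

theorem all_or_all {Y A B : Type} {U V : Set Y} (hV : V.Infinite) {e : Y → Y → A × B}
    (hi : ∀ u ∈ U, ∀ v ∈ V, ∀ v' ∈ V, e u v = e u v' → v = v')
    (h1 : ∀ u ∈ U, (∀ v ∈ V, ∀ v' ∈ V, (e u v).1 = (e u v').1) ∨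
      ∀ v ∈ V, ∀ v' ∈ V, (e u v).2 = (e u v').2)
    (h2 : ∀ v ∈ V, (∀ u ∈ U, ∀ u' ∈ U, (e u v).1 = (e u' v).1) ∨
      ∀ u ∈ U, ∀ u' ∈ U, (e u v).2 = (e u' v).2) :
    (∀ u ∈ U, ∀ v ∈ V, ∀ v' ∈ V, (e u v).1 = (e u v').1) ∨
      ∀ u ∈ U, ∀ v ∈ V, ∀ v' ∈ V, (e u v).2 = (e u v').2 := by
  by_contra hn
  rw [not_or] at hn
  obtain ⟨u, hu⟩ := not_forall.1 hn.1
  obtain ⟨u', hu'⟩ := not_forall.1 hn.2
  rw [Classical.not_imp] at hu hu'
  have a2 := (h1 u hu.1).resolve_left hu.2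
  have a1 := (h1 u' hu'.1).resolve_right hu'.2
  have s1 : {v ∈ V | ∀ u ∈ U, ∀ u' ∈ U, (e u v).1 = (e u' v).1}.Subsingleton := fun v hv v' hv' =>
    hi u hu.1 v hv.1 v' hv'.1 (Prod.ext (((hv.2 u hu.1 u' hu'.1).trans (a1 v hv.1 v' hv'.1)).trans
      (hv'.2 u' hu'.1 u hu.1)) (a2 v hv.1 v' hv'.1))
  have s2 : {v ∈ V | ∀ u ∈ U, ∀ u' ∈ U, (e u v).2 = (e u' v).2}.Subsingleton := fun v hv v' hv' =>
    hi u' hu'.1 v hv.1 v' hv'.1 (Prod.ext (a1 v hv.1 v' hv'.1) (((hv.2 u' hu'.1 u hu.1).trans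
      (a2 v hv.1 v' hv'.1)).trans (hv'.2 u hu.1 u' hu'.1)))
  exact hV ((s1.finite.union s2.finite).subset fun v hv =>
    (h2 v hv).imp (fun h => ⟨hv, h⟩) fun h => ⟨hv, h⟩)

/-- A homeomorphism between open subsets of `Y × Y` is locally a product, up to the order of the factors. -/
theorem dich [CompactSpace Y] [T2Space Y] [LocallyConnectedSpace Y] [∀ y : Y, NeBot (𝓝[≠] y)]
    (hA : AP Y) (hE : EL Y) (e : OpenPartialHomeomorph (Y × Y) (Y × Y)) {ξ : Y × Y}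
    (hξ : ξ ∈ e.source) : ∃ N ∈ 𝓝 ξ, N ⊆ e.source ∧
      ((∀ p ∈ N, ∀ q ∈ N, (p.1 = q.1 → (e p).1 = (e q).1) ∧ (p.2 = q.2 → (e p).2 = (e q).2)) ∨
        ∀ p ∈ N, ∀ q ∈ N, (p.1 = q.1 → (e p).2 = (e q).2) ∧ (p.2 = q.2 → (e p).1 = (e q).1)) := by
  obtain ⟨W₁, w1, W₂, w2, hW⟩ := mem_nhds_prod_iff.1 (e.open_target.mem_nhds (e.map_source hξ))
  obtain ⟨U', u1, V', v1, hUV⟩ := mem_nhds_prod_iff.1 (inter_mem (e.open_source.mem_nhds hξ)
    (e.continuousAt hξ (prod_mem_nhds w1 w2)))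
  obtain ⟨U, u2, u3, u4, u5⟩ := locallyConnectedSpace_iff_subsets_isOpen_isConnected.1 ‹_› _ _ u1
  obtain ⟨V, v2, v3, v4, v5⟩ := locallyConnectedSpace_iff_subsets_isOpen_isConnected.1 ‹_› _ _ v1
  have s : ∀ u ∈ U, ∀ v ∈ V, (u, v) ∈ e.source ∧ e (u, v) ∈ W₁ ×ˢ W₂ := fun u hu v hv =>
    hUV (mk_mem_prod (u2 hu) (v2 hv))
  have s' : U ×ˢ V ⊆ e.source := fun p hp => (s _ hp.1 _ hp.2).1
  have h1 := fun u hu => half hA hE u3 v5.isPreconnected (e.continuousOn.mono s')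
    (continuous_fst.comp_continuousOn (e.continuousOn_symm.mono hW))
    (fun u hu v hv => ⟨(s u hu v hv).2, congrArg Prod.fst (e.left_inv (s u hu v hv).1)⟩) (u := u) hu
  have h2 := fun v hv => half hA hE (e := fun p => e p.swap) v3 u5.isPreconnected
    (e.continuousOn.comp continuous_swap.continuousOn fun p hp => (s _ hp.2 _ hp.1).1)
    (continuous_snd.comp_continuousOn (e.continuousOn_symm.mono hW))
    (fun v hv u hu => ⟨(s u hu v hv).2, congrArg Prod.snd (e.left_inv (s u hu v hv).1)⟩) (u := v) hv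
  have N1 := prod_mem_nhds (u3.mem_nhds u4) (v3.mem_nhds v4)
  have a1 := all_or_all (infinite_of_mem_nhds _ (v3.mem_nhds v4)) (e := fun u v => e (u, v))
    (fun u hu v hv v' hv' h => congrArg Prod.snd (e.injOn (s u hu v hv).1 (s u hu v' hv').1 h)) h1 h2
  have a2 := all_or_all (infinite_of_mem_nhds _ (u3.mem_nhds u4)) (e := fun v u => e (u, v))
    (fun v hv u hu u' hu' h => congrArg Prod.fst (e.injOn (s u hu v hv).1 (s u' hu' v hv).1 h)) h2 h1
  obtain ⟨A, m1, B, m2, hAB⟩ := mem_nhds_prod_iff.1 (e.image_mem_nhds hξ N1)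
  refine ⟨_, N1, s', ?_⟩
  rcases a1 with a1 | a1 <;> rcases a2 with a2 | a2
  · refine absurd (Set.Subsingleton.finite fun y hy y' hy' => ?_) (infinite_of_mem_nhds _ m1)
    obtain ⟨p, hp, e1⟩ := hAB (mk_mem_prod hy (mem_of_mem_nhds m2))
    obtain ⟨q, hq, e2⟩ := hAB (mk_mem_prod hy' (mem_of_mem_nhds m2))
    have := (a1 _ hp.1 _ hp.2 _ hq.2).trans (a2 _ hq.2 _ hp.1 _ hq.1)
    rwa [Prod.mk.eta, Prod.mk.eta, e1, e2] at this
  · refine Or.inl fun p hp q hq => ⟨fun h => ?_, fun h => ?_⟩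
    · simpa only [Prod.mk.eta, show (p.1, q.2) = q from Prod.ext h rfl] using a1 _ hp.1 _ hp.2 _ hq.2
    · simpa only [Prod.mk.eta, show (q.1, p.2) = q from Prod.ext rfl h] using a2 _ hp.2 _ hp.1 _ hq.1
  · refine Or.inr fun p hp q hq => ⟨fun h => ?_, fun h => ?_⟩
    · simpa only [Prod.mk.eta, show (p.1, q.2) = q from Prod.ext h rfl] using a1 _ hp.1 _ hp.2 _ hq.2
    · simpa only [Prod.mk.eta, show (q.1, p.2) = q from Prod.ext rfl h] using a2 _ hp.2 _ hp.1 _ hq.1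
  · refine absurd (Set.Subsingleton.finite fun y hy y' hy' => ?_) (infinite_of_mem_nhds _ m2)
    obtain ⟨p, hp, e1⟩ := hAB (mk_mem_prod (mem_of_mem_nhds m1) hy)
    obtain ⟨q, hq, e2⟩ := hAB (mk_mem_prod (mem_of_mem_nhds m1) hy')
    have := (a1 _ hp.1 _ hp.2 _ hq.2).trans (a2 _ hq.2 _ hp.1 _ hq.1)
    rwa [Prod.mk.eta, Prod.mk.eta, e1, e2] at this

/-- A space which contains a product of two nondegenerate continua does not have `AP`. -/
theorem not_ap [CompactSpace X] [T2Space X] [CompactSpace L] [T2Space L] [PreconnectedSpace L]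
    [Nontrivial L] [CompactSpace T] [T2Space T] [PreconnectedSpace T] [Nontrivial T]
    {j : L × T → X} (hj : Continuous j) (hi : Function.Injective j) : ¬ AP X := by
  intro hA
  obtain ⟨a, a', ha⟩ := exists_pair_ne L
  obtain ⟨b, b', hb⟩ := exists_pair_ne T
  obtain ⟨u, u0, u1, -⟩ := exists_continuous_zero_one_of_isClosed isClosed_singleton
    isClosed_singleton (disjoint_singleton.2 ha)
  obtain ⟨v, v0, v1, -⟩ := exists_continuous_zero_one_of_isClosed isClosed_singleton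
    isClosed_singleton (disjoint_singleton.2 hb)
  obtain ⟨g, hg⟩ := ContinuousMap.exists_extension' (hj.isClosedEmbedding hi)
    (⟨fun p => (2 * u p.1 - 1 : ℝ) + (2 * v p.2 - 1 : ℝ) * I, by fun_prop⟩ : C(L × T, ℂ))
  obtain ⟨R, r1, r2⟩ := hA g g.continuous 1 one_pos
  have e1 : ∀ p, |(R (j p)).re - (2 * u p.1 - 1)| < 1 := fun p => by
    simpa [show g (j p) = _ from congrFun hg p] using (abs_re_le_norm _).trans_lt (r2 (j p)).2
  have e2 : ∀ p, |(R (j p)).im - (2 * v p.2 - 1)| < 1 := fun p => by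
    simpa [show g (j p) = _ from congrFun hg p] using (abs_im_le_norm _).trans_lt (r2 (j p)).2
  have h₀ : ∀ t, 0 < (R (j (a', t))).re := fun t => by
    have := abs_lt.1 (e1 (a', t))
    rw [u1 rfl, Pi.one_apply] at this
    linarith
  have h₁ : ∀ s, 0 < (R (j (s, b'))).im := fun s => by
    have := abs_lt.1 (e2 (s, b'))
    rw [v1 rfl, Pi.one_apply] at this
    linarith
  have h₂ : ∀ t, (R (j (a, t))).re < 0 := fun t => by
    have := abs_lt.1 (e1 (a, t))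
    rw [u0 rfl, Pi.zero_apply] at this
    linarith
  have h₃ : ∀ s, (R (j (s, b))).im < 0 := fun s => by
    have := abs_lt.1 (e2 (s, b))
    rw [v0 rfl, Pi.zero_apply] at this
    linarith
  exact quad (f := fun p => R (j p)) (S₀ := {a'} ×ˢ univ) (S₁ := univ ×ˢ {b'}) (S₂ := {a} ×ˢ univ)
    (S₃ := univ ×ˢ {b}) (isPreconnected_singleton.prod isPreconnected_univ)
    (isPreconnected_univ.prod isPreconnected_singleton)
    (isPreconnected_singleton.prod isPreconnected_univ)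
    (isPreconnected_univ.prod isPreconnected_singleton)
    (by rintro ⟨_, t⟩ ⟨rfl, -⟩; exact h₀ t) (by rintro ⟨s, _⟩ ⟨-, rfl⟩; exact h₁ s)
    (by rintro ⟨_, t⟩ ⟨rfl, -⟩; exact h₂ t) (by rintro ⟨s, _⟩ ⟨-, rfl⟩; exact h₃ s)
    ⟨(a', b), by simp⟩ ⟨(a', b'), by simp⟩ ⟨(a, b'), by simp⟩ ⟨(a, b), by simp⟩
    (hl_prod (by fun_prop) (fun p => (r2 _).1) (s₀ := a') (t₀ := b')
      (hasLog_of_slit (by fun_prop) fun s => Or.inr (h₁ s).ne')
      (hasLog_of_slit (by fun_prop) fun t => Or.inl (h₀ t)))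

/-- Three families of disjoint small open sets. -/
theorem dim_two {P X : Type} [TopologicalSpace P] [CompactSpace P] [MetricSpace X] [CompactSpace X]
    [Nonempty X] {p : P → X} (hp : Continuous p) (hp' : Function.Surjective p)
    (h : ∀ ε > 0, ∃ (J : Type) (_ : Finite J) (κ : Fin 3 → P → Option J),
      (∀ i, IsLocallyConstant (κ i)) ∧
      (∀ x, ∃ i j, ∀ q, p q = x → κ i q = some j) ∧
      ∀ i j q q', κ i q = some j → κ i q' = some j → dist (p q) (p q') < ε)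
    (n : ℕ) (U : Fin n → Set X) (hU : ∀ i, IsOpen (U i)) (hc : (⋃ i, U i) = univ) :
    ∃ (m : ℕ) (V : Fin m → Set X), (∀ j, IsOpen (V j)) ∧ (⋃ j, V j) = univ ∧
      (∀ j, ∃ i, V j ⊆ U i) ∧ ∀ x : X, {j | x ∈ V j}.ncard ≤ 2 + 1 := by
  obtain ⟨ε, hε, hl⟩ := lebesgue_number_lemma_of_metric isCompact_univ hU hc.ge
  obtain ⟨J, _, κ, h1, h2, h3⟩ := h ε hε
  obtain ⟨m, ⟨e⟩⟩ := Finite.exists_equiv_fin (Fin 3 × J)
  refine ⟨m, fun k => (p '' {q | κ (e.symm k).1 q ≠ some (e.symm k).2})ᶜ, fun k => ?_,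
    eq_univ_of_forall fun x => ?_, fun k => ?_, fun x => ?_⟩
  · exact ((IsClosed.isCompact ⟨h1 _ {o | o ≠ some (e.symm k).2}ᶜ⟩).image hp).isClosed.isOpen_compl
  · obtain ⟨i, j, hij⟩ := h2 x
    exact mem_iUnion.2 ⟨e (i, j), fun ⟨q, hq, hx⟩ => hq (by simpa using hij q hx)⟩
  · by_cases hk : ∃ q, κ (e.symm k).1 q = some (e.symm k).2
    · obtain ⟨q, hq⟩ := hk
      refine (hl (p q) trivial).imp fun i hi x hx => hi ?_
      obtain ⟨q', rfl⟩ := hp' x
      exact h3 _ _ _ _ (not_not.1 fun h => hx ⟨q', h, rfl⟩) hq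
    · refine (hl (Classical.arbitrary X) trivial).imp fun i _ x hx => ?_
      obtain ⟨q', rfl⟩ := hp' x
      exact absurd ⟨q', not_not.1 fun h => hx ⟨q', h, rfl⟩⟩ hk
  · obtain ⟨q, rfl⟩ := hp' x
    refine (ncard_le_ncard_of_injOn (t := univ) (fun k => (e.symm k).1) (fun _ _ => trivial)
      fun k hk k' hk' hkk => e.symm.injective (Prod.ext hkk ?_)).trans (by simp)
    have a := not_not.1 fun h => hk ⟨q, h, rfl⟩
    have b := not_not.1 fun h => hk' ⟨q, h, rfl⟩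
    rw [← show (e.symm k).1 = (e.symm k').1 from hkk] at b
    exact Option.some.inj (a.symm.trans b)

end Pool.Agent.Lib.PD66
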