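import Pool.Agent.Lib.PD66.Xs

/-! No homeomorphism of `X` interchanges a point and its translate in the fibre. -/

noncomputable section

namespace Pool.Agent.Lib.PD66

open Topology Filter Set
open Pool.Agent.Lib.MP_0a6a2f_gt (lab lab_self)

variable (h : X ≃ₜ X)

/-- Fibres go to fibres near the point. -/
def S1 : Set X := {ξ | ∃ N ∈ 𝓝 ξ, ∀ η ∈ N, ∀ η' ∈ N, bt η = bt η' → bt (h η) = bt (h η')}

/-- Fibres are transversal to images of fibres near the point. -/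
def S2 : Set X := {ξ | ∃ N ∈ 𝓝 ξ, ∀ η ∈ N, ∀ η' ∈ N, bt η = bt η' → bt (h η) = bt (h η') → η = η'}

theorem alt (z : M) (y : Y) {b : Fin 9} (hb : bt (h (mk (z, y))) ∈ O b) :
    (mk (z, y) ∈ S1 h ∧ ∀ᶠ z' in 𝓝 z, bt (h (mk (z', y))) ∈ O b ∧
      tau b (h (mk (z', y))) = tau b (h (mk (z, y)))) ∨
    (mk (z, y) ∈ S2 h ∧ ∀ᶠ z' in 𝓝 z, bt (h (mk (z', y))) = bt (h (mk (z, y)))) := by
  let c := chart (pr 0 z)
  have hs : mk (z, y) ∈ c.source := mem_O z
  obtain ⟨N, h1, h2, h3⟩ := dich ap el (c.symm.trans (h.transOpenPartialHomeomorph (chart b)))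
    (ξ := c (mk (z, y))) ⟨c.map_source hs, show bt (h (c.symm _)) ∈ O b by rwa [c.left_inv hs]⟩
  have n1 : c.source ∩ c ⁻¹' N ∈ 𝓝 (mk (z, y)) :=
    inter_mem (c.open_source.mem_nhds hs) (c.continuousAt hs h1)
  have e1 : ∀ η ∈ c.source, (c.symm.trans (h.transOpenPartialHomeomorph (chart b))) (c η) =
      (bt (h η), tau b (h η)) := fun η hη => by
    rw [OpenPartialHomeomorph.trans_apply, c.left_inv hη]
    rfl
  have e2 : ∀ η ∈ c.source ∩ c ⁻¹' N, bt (h η) ∈ O b := fun η hη => by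
    have : bt (h (c.symm (c η))) ∈ O b := (h2 hη.2).2
    rwa [c.left_inv hη.1] at this
  have n2 : ∀ᶠ z' in 𝓝 z, mk (z', y) ∈ c.source ∩ c ⁻¹' N ∧ (c (mk (z', y))).2 = (c (mk (z, y))).2 := by
    filter_upwards [(show Continuous fun z' => mk (z', y) by fun_prop).continuousAt n1,
      (pr_lc 0).eventually_eq z] with z' h4 h5
    exact ⟨h4, (tau_mk (p := (z', y)) h4.1).trans
      ((congrArg (lab ga gt _ · • y) h5).trans (tau_mk (p := (z, y)) hs).symm)⟩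
  have n3 := mem_of_mem_nhds n1
  rcases h3 with h3 | h3
  · refine Or.inl ⟨⟨_, n1, fun η hη η' hη' e => ?_⟩, n2.mono fun z' h4 => ⟨e2 _ h4.1, ?_⟩⟩
    · simpa only [e1 _ hη.1, e1 _ hη'.1] using (h3 _ hη.2 _ hη'.2).1 e
    · simpa only [e1 _ h4.1.1, e1 _ hs] using (h3 _ h4.1.2 _ n3.2).2 h4.2
  · refine Or.inr ⟨⟨_, n1, fun η hη η' hη' e e' => h.injective ((chart b).injOn (e2 _ hη) (e2 _ hη')
      (Prod.ext e' (show tau b _ = tau b _ from ?_)))⟩, n2.mono fun z' h4 => ?_⟩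
    · simpa only [e1 _ hη.1, e1 _ hη'.1] using (h3 _ hη.2 _ hη'.2).1 e
    · simpa only [e1 _ h4.1.1, e1 _ hs] using (h3 _ h4.1.2 _ n3.2).2 h4.2

theorem exists_O (y : Y) : y ∈ O (pr 0 y.out) := by
  have := mem_O y.out
  rwa [pt, Quotient.out_eq] at this

theorem disj {ξ : X} (h1 : ξ ∈ S1 h) : ξ ∉ S2 h := by
  obtain ⟨⟨z, y⟩, rfl⟩ := Quotient.exists_rep ξ
  obtain ⟨N, n1, h1⟩ := h1
  rintro ⟨N', n2, h2⟩
  obtain ⟨y', ⟨h3, h4⟩, h5⟩ := Filter.nonempty_of_mem (inter_mem (mem_nhdsWithin_of_mem_nhds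
    ((show Continuous fun y => mk (z, y) by fun_prop).continuousAt (inter_mem n1 n2)))
    (self_mem_nhdsWithin (s := {y}ᶜ)))
  exact h5 (mk_inj (h2 _ h4 _ (mem_of_mem_nhds n2) rfl (h1 _ h3 _ (mem_of_mem_nhds n1) rfl)))

theorem all_S1 (ξ : X) : ξ ∈ S1 h := by
  have o1 : IsOpen (S1 h) := isOpen_iff_mem_nhds.2 fun _ ⟨N, h1, h2⟩ =>
    mem_of_superset (eventually_mem_nhds_iff.2 h1) fun _ h3 => ⟨N, h3, h2⟩
  have o2 : IsOpen (S2 h) := isOpen_iff_mem_nhds.2 fun _ ⟨N, h1, h2⟩ =>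
    mem_of_superset (eventually_mem_nhds_iff.2 h1) fun _ h3 => ⟨N, h3, h2⟩
  rcases isPreconnected_univ.subset_or_subset o1 o2 (Set.disjoint_left.2 fun _ => disj h)
    (fun ξ _ => Quotient.inductionOn ξ fun p =>
      (alt h p.1 p.2 (exists_O _)).imp And.left And.left) with h1 | h1
  · exact h1 trivial
  obtain ⟨⟨z, p⟩, rfl⟩ := Quotient.exists_rep ξ
  have h2 := sol_const (F := fun z g => bt (h (mk (z, g⁻¹ • p))))
    (fun g => (IsLocallyConstant.iff_eventually_eq _).2 fun z =>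
      ((alt h z _ (exists_O _)).resolve_left fun h2 => disj h h2.1 (h1 trivial)).2)
    (fun _ _ _ hr => by rw [mk_sol hr]) z z
  obtain ⟨q, -, hq⟩ := (infinite_range_of_injective (f := fun g : Gam => g⁻¹ • p)
    fun _ _ e => inv_injective (free e)).exists_accPt_of_subset_isCompact isCompact_univ
    (subset_univ _)
  obtain ⟨N, n1, h3⟩ := h1 (mem_univ (mk (z, q)))
  have n2 := (show Continuous fun y => mk (z, y) by fun_prop).continuousAt n1
  obtain ⟨_, ⟨h4, g, rfl⟩, h5⟩ := accPt_iff_nhds.1 hq _ n2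
  obtain ⟨_, ⟨⟨h6, h7⟩, g', rfl⟩, -⟩ := accPt_iff_nhds.1 hq _
    (inter_mem n2 (isOpen_compl_singleton.mem_nhds h5.symm))
  exact absurd (mk_inj (h3 _ h6 _ h4 rfl (h2 g' g))) h7

theorem exists_coord : ∃ (w : M → M) (ψ : M → Y → Y), ∀ z y, h (mk (z, y)) = mk (w z, ψ z y) := by
  have h1 : ∀ z y y', bt (h (mk (z, y))) = bt (h (mk (z, y'))) := fun z =>
    IsLocallyConstant.apply_eq_of_preconnectedSpace (f := fun y => bt (h (mk (z, y))))
      ((IsLocallyConstant.iff_eventually_eq _).2 fun y => by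
        obtain ⟨N, n1, h1⟩ := all_S1 h (mk (z, y))
        filter_upwards [(show Continuous fun y => mk (z, y) by fun_prop).continuousAt n1] with y' h2
          using h1 _ h2 _ (mem_of_mem_nhds n1) rfl)
  have h2 : ∀ z, ∃ w, ∀ y, ∃ y', h (mk (z, y)) = mk (w, y') := fun z => by
    obtain ⟨w, hw⟩ := Quotient.exists_rep (bt (h (mk (z, Classical.arbitrary Y))))
    refine ⟨w, fun y => ?_⟩
    obtain ⟨p, hp⟩ := Quotient.exists_rep (h (mk (z, y)))
    exact ⟨lb w p.1 • p.2, hp.symm.trans (mk_eq.2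
      ⟨pt_eq.1 ((hw.trans (h1 z _ y)).trans (congrArg bt hp).symm), rfl⟩).symm⟩
  choose w ψ h2 using h2
  exact ⟨w, ψ, h2⟩

theorem no_swap (z : M) (p : Y) (h1 : h (mk (z, p)) = mk (z, gt • p)) :
    h (mk (z, gt • p)) ≠ mk (z, p) := by
  intro h2
  obtain ⟨w, ψ, hψ⟩ := exists_coord h
  have l1 : ∀ z y, ∀ᶠ z' in 𝓝 z, ψ z y = lb (w z) (w z') • ψ z' y := fun z y => by
    filter_upwards [((alt h z y (b := pr 0 (w z)) (hψ z y ▸ mem_O _)).resolve_right
      fun h3 => disj h (all_S1 h _) h3.1).2] with z' h3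
    rw [hψ, hψ] at h3
    have := ((tau_mk (p := (w z, ψ z y)) (mem_O _)).symm.trans h3.2.symm).trans (tau_mk h3.1)
    rwa [lab_self, one_smul] at this
  have l2 : ∀ {l : Gam} {a b a' b' A B : Y}, a = l • a' → b = l • b' →
      (∃ c : Gam, a = c • A ∧ b = c • B) = ∃ c : Gam, a' = c • A ∧ b' = c • B := by
    rintro l _ _ a b A B rfl rfl
    exact propext ⟨fun ⟨c, h3, h4⟩ => ⟨l⁻¹ * c, by rw [mul_smul, ← h3, inv_smul_smul],
      by rw [mul_smul, ← h4, inv_smul_smul]⟩,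
      fun ⟨c, h3, h4⟩ => ⟨l * c, by rw [mul_smul, h3], by rw [mul_smul, h4]⟩⟩
  have l3 : ∀ {z v} (g : Gam) (y : Y), R z v →
      ψ z (g⁻¹ • y) = lb (w z) (w v) • ψ v ((g * lb z v)⁻¹ • y) := fun g y hr =>
    (mk_eq.1 ((hψ _ _).symm.trans ((congrArg h (mk_sol hr g y)).trans (hψ _ _)))).2
  have l4 : ∀ (g : Gam) (y : Y), ∃ c : Gam, ψ z (g • y) = c • ψ z y ∧ ψ z (g • p) = c • ψ z p :=
    fun g y => by
      have := sol_const
        (F := fun v g => ∃ c : Gam, ψ v (g⁻¹ • y) = c • ψ z y ∧ ψ v (g⁻¹ • p) = c • ψ z p)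
        (fun g => (IsLocallyConstant.iff_eventually_eq _).2 fun v => by
          filter_upwards [l1 v (g⁻¹ • y), l1 v (g⁻¹ • p)] with v' h3 h4 using (l2 h3 h4).symm)
        (fun _ _ g hr => l2 (l3 g y hr) (l3 g p hr)) z z 1 g⁻¹
      rw [inv_inv] at this
      exact this ▸ ⟨1, by simp⟩
  choose φ hφ _ using fun g => l4 g p
  have l5 : ∀ g y, ψ z (g • y) = φ g • ψ z y := fun g y => by
    obtain ⟨c, h3, h4⟩ := l4 g y
    rw [h3, free (h4.symm.trans (hφ g))]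
  refine no_inv (MonoidHom.mk' φ fun a b => free (y := ψ z p) (by
    rw [← l5, mul_smul, mul_smul, l5, l5])) ((injective_iff_map_eq_one _).2 fun g hg => ?_) ?_
  · refine free ((mk_inj (z := z) (h.injective ?_)).trans (one_smul _ p).symm)
    rw [hψ, hψ, l5, show φ g = 1 from hg, one_smul]
  · have e1 : ψ z p = lb (w z) z • gt • p := (mk_eq.1 ((hψ _ _).symm.trans h1)).2
    have e2 : ψ z (gt • p) = lb (w z) z • p := (mk_eq.1 ((hψ _ _).symm.trans h2)).2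
    rw [l5, e1, smul_smul, smul_smul] at e2
    have := congrArg Gam.n (free e2)
    simp only [mul_n, show gt.n = 1 from rfl] at this
    exact (by omega : (φ gt).n = -1)

end Pool.Agent.Lib.PD66
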