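import Pool.Agent.Lib.PD66.Gr
import Pool.Agent.Lib.MP_0a6a2f_gt.Tower

/-! The generic tower of finite graphs with an action of `Gam`, and its limit. -/

noncomputable section

namespace Pool.Agent.Lib.PD66

open Relation
open Pool.Agent.Lib.MP_0a6a2f_gt (FG Good Conn Near A0 exists_empty exists_mem_all lc_closed lc_open)

def T : ℕ → GG
  | 0 => triv A0
  | n + 1 => (next_exists (T n) (n * Nat.card (T n).V)).choose

def bond (n : ℕ) : (T (n + 1)).V → (T n).V :=
  (next_exists (T n) (n * Nat.card (T n).V)).choose_spec.choose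

theorem bond_spec (n : ℕ) : Mor (T (n + 1)) (T n) (bond n) ∧ ∀ (C : GG) (q : C.V → (T n).V),
    Mor C (T n) q → Nat.card C.V ≤ n * Nat.card (T n).V →
      ∃ r, Mor (T (n + 1)) C r ∧ ∀ v, q (r v) = bond n v :=
  (next_exists (T n) (n * Nat.card (T n).V)).choose_spec.choose_spec

instance (n : ℕ) : TopologicalSpace (T n).V := ⊥

instance (n : ℕ) : DiscreteTopology (T n).V := ⟨rfl⟩

/-- The limit of the tower. -/
abbrev M : Type := {x : ∀ n, (T n).V // ∀ n, bond n (x (n + 1)) = x n}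

instance : CompactSpace M := by
  refine isCompact_iff_compactSpace.1 (IsClosed.isCompact (s := {x | _}) ?_)
  rw [Set.ofPred_forall]
  exact isClosed_iInter fun n => isClosed_eq
    (continuous_of_discreteTopology.comp (continuous_apply (n + 1))) (continuous_apply n)

def pr (n : ℕ) (x : M) : (T n).V := x.1 n

theorem pr_lc (n : ℕ) : IsLocallyConstant (pr n) :=
  (IsLocallyConstant.iff_continuous fun x : M => x.1 n).2
    ((continuous_apply n).comp continuous_subtype_val)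

theorem pr_ext {x y : M} (h : ∀ n, pr n x = pr n y) : x = y := Subtype.ext (funext h)

theorem pr_surj (n : ℕ) (a : (T n).V) : ∃ x, pr n x = a := by
  have step : ∀ m (x : ∀ n, (T n).V) (b : (T (m + 1)).V), bond m b = x m →
      (∀ j < m, bond j (x (j + 1)) = x j) → ∀ j < m + 1,
        bond j (Function.update x (m + 1) b (j + 1)) = Function.update x (m + 1) b j := by
    intro m x b h1 h2 j hj
    rw [Function.update_of_ne hj.ne]
    rcases Nat.lt_succ_iff_lt_or_eq.1 hj with hj | rfl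
    · rw [Function.update_of_ne (by omega), h2 j hj]
    · rw [Function.update_self, h1]
  have ne : ∀ n, Nonempty (T n).V := fun n => by
    induction n with
    | zero => exact ⟨(0 : Fin 9)⟩
    | succ n ih => exact ih.elim fun a => ⟨((bond_spec n).1.surj a).choose⟩
  have base : ∀ m (a : (T m).V), ∃ x : ∀ n, (T n).V, x m = a ∧
      ∀ j < m, bond j (x (j + 1)) = x j := fun m => by
    induction m with
    | zero => exact fun a => ⟨Function.update (fun n => (ne n).some) 0 a, by simp, by simp⟩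
    | succ m ih =>
      intro a
      obtain ⟨x, h1, h2⟩ := ih (bond m a)
      exact ⟨_, Function.update_self .., step m x a h1.symm h2⟩
  obtain ⟨x, hx⟩ := exists_mem_all
    (fun m => {x : ∀ n, (T n).V | x n = a ∧ ∀ j < n + m, bond j (x (j + 1)) = x j})
    (fun m => (isClosed_eq (continuous_apply n) continuous_const).inter (by
      show IsClosed {x : ∀ n, (T n).V | ∀ j < n + m, bond j (x (j + 1)) = x j}
      simp only [Set.ofPred_forall]
      exact isClosed_iInter fun j => isClosed_iInter fun _ => isClosed_eq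
        (continuous_of_discreteTopology.comp (continuous_apply (j + 1))) (continuous_apply j)))
    (fun m x hx => ⟨hx.1, fun j hj => hx.2 j (by omega)⟩)
    fun m => by
      induction m with
      | zero => exact base n a
      | succ m ih =>
        obtain ⟨x, h1, h2⟩ := ih
        obtain ⟨b, hb⟩ := (bond_spec (n + m)).1.surj (x (n + m))
        exact ⟨_, (Function.update_of_ne (by omega) ..).trans h1, step _ x b hb h2⟩
  exact ⟨⟨x, fun j => (hx (j + 1)).2 j (by omega)⟩, (hx 0).1⟩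

instance : Nonempty M := ⟨(pr_surj 0 (0 : Fin 9)).choose⟩

theorem continuous_of_pr {Y : Type} [TopologicalSpace Y] {h : Y → M}
    (hh : ∀ n, IsLocallyConstant fun y => pr n (h y)) : Continuous h :=
  continuous_induced_rng.2 (continuous_pi fun n => (IsLocallyConstant.iff_continuous _).1 (hh n))

instance : MulAction Gam M where
  smul γ x := ⟨fun n => (T n).act γ (x.1 n), fun n => by rw [(bond_spec n).1.eqv, x.2]⟩
  one_smul _ := pr_ext fun n => (T n).one _
  mul_smul _ _ _ := pr_ext fun n => (T n).mul _ _ _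

theorem pr_smul (n : ℕ) (γ : Gam) (x : M) : pr n (γ • x) = (T n).act γ (pr n x) := rfl

instance : TopologicalSpace Gam := ⊥

instance : DiscreteTopology Gam := ⟨rfl⟩

instance : ContinuousSMul Gam M :=
  ⟨continuous_prod_of_discrete_left.2 fun γ =>
    continuous_of_pr fun n => (pr_lc n).comp ((T n).act γ)⟩

/-- Equivariant connected epimorphisms from the limit. -/
def Epi (A : GG) (f : M → A.V) : Prop :=
  ∃ n, ∃ g : (T n).V → A.V, Mor (T n) A g ∧ ∀ x, f x = g (pr n x)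

theorem epi_pr (n : ℕ) : Epi (T n) (pr n) := ⟨n, _, Mor.id _, fun _ => rfl⟩

theorem Epi.comp {A B : GG} {f : M → A.V} (hf : Epi A f) {g : A.V → B.V} (hg : Mor A B g) :
    Epi B fun x => g (f x) := by
  obtain ⟨n, g', hg', h⟩ := hf
  exact ⟨n, _, hg.comp hg', fun x => congrArg g (h x)⟩

theorem Epi.eqv {A : GG} {f : M → A.V} (hf : Epi A f) (γ : Gam) (x : M) :
    f (γ • x) = A.act γ (f x) := by
  obtain ⟨n, g, hg, h⟩ := hf
  rw [h, h, pr_smul, hg.eqv]

theorem pr_down {n m : ℕ} (h : n ≤ m) :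
    ∃ g : (T m).V → (T n).V, Mor (T m) (T n) g ∧ ∀ x, pr n x = g (pr m x) := by
  induction m, h using Nat.le_induction with
  | base => exact ⟨_, Mor.id _, fun _ => rfl⟩
  | succ m _ ih =>
    obtain ⟨g', hg', h'⟩ := ih
    exact ⟨_, hg'.comp (bond_spec m).1, fun x => (h' x).trans (congrArg g' (x.2 m).symm)⟩

theorem Epi.up {A : GG} {f : M → A.V} (hf : Epi A f) (k : ℕ) :
    ∃ n, k ≤ n ∧ ∃ g : (T n).V → A.V, Mor (T n) A g ∧ ∀ x, f x = g (pr n x) := by
  obtain ⟨n, g, hg, h⟩ := hf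
  obtain ⟨g', hg', h'⟩ := pr_down (le_max_right k n)
  exact ⟨_, le_max_left _ _, _, hg.comp hg', fun x => by rw [h, h']⟩

theorem pr_mono {n m : ℕ} (h : n ≤ m) {x y : M} (hxy : pr m x = pr m y) : pr n x = pr n y := by
  obtain ⟨g, -, hg⟩ := pr_down h
  rw [hg, hg, hxy]

theorem pr_adj_mono {n m : ℕ} (h : n ≤ m) {x y : M} (hxy : (T m).adj (pr m x) (pr m y)) :
    (T n).adj (pr n x) (pr n y) := by
  obtain ⟨g, hg', hg⟩ := pr_down h
  rw [hg, hg]
  exact hg'.good.hom _ _ hxy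

theorem Epi.lc {A : GG} {f : M → A.V} (hf : Epi A f) : IsLocallyConstant f := by
  obtain ⟨n, g, -, h⟩ := hf
  rw [show f = g ∘ pr n from funext h]
  exact (pr_lc n).comp g

theorem Epi.surj {A : GG} {f : M → A.V} (hf : Epi A f) (a : A.V) : ∃ x, f x = a := by
  obtain ⟨n, g, hg, h⟩ := hf
  obtain ⟨b, rfl⟩ := hg.surj a
  obtain ⟨x, rfl⟩ := pr_surj n b
  exact ⟨x, h x⟩

theorem Epi.ext {A C : GG} {f : M → A.V} (hf : Epi A f) {q : C.V → A.V} (hq : Mor C A q) :
    ∃ f' : M → C.V, Epi C f' ∧ ∀ x, q (f' x) = f x := by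
  obtain ⟨n, hn, g, hg, h⟩ := hf.up (Nat.card C.V)
  obtain ⟨r, hr, h'⟩ := (bond_spec n).2 _ _ (fp_fst hg hq) (by
    refine (Nat.card_le_card_of_injective (β := (T n).V × C.V) Subtype.val
      Subtype.val_injective).trans ?_
    rw [Nat.card_prod, mul_comm]
    exact Nat.mul_le_mul_right _ hn)
  exact ⟨fun x => (r (pr (n + 1) x)).1.2, ⟨n + 1, _, (fp_snd hg hq).comp hr, fun _ => rfl⟩,
    fun x => by rw [← (r _).2, h', h]; exact congrArg g (x.2 n)⟩

/-- The edge relation of the limit. -/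
def R (x y : M) : Prop := ∀ n, (T n).adj (pr n x) (pr n y)

theorem R.refl (x : M) : R x x := fun _ => FG.refl _ _

theorem R.symm {x y : M} (h : R x y) : R y x := fun n => FG.symm _ _ _ (h n)

theorem R.smul {x y : M} (h : R x y) (γ : Gam) : R (γ • x) (γ • y) :=
  fun n => (T n).hact γ _ _ (h n)

theorem Epi.hom {A : GG} {f : M → A.V} (hf : Epi A f) {x y : M} (h : R x y) :
    A.adj (f x) (f y) := by
  obtain ⟨n, g, hg, h'⟩ := hf
  rw [h', h']
  exact hg.good.hom _ _ (h n)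

theorem pair_lc {Y : Type} [TopologicalSpace Y] {A B : Type} {f : M → A} {g : M → B}
    (hf : IsLocallyConstant f) (hg : IsLocallyConstant g) {u v : Y → M} (hu : Continuous u)
    (hv : Continuous v) : IsLocallyConstant fun y => (f (u y), g (v y)) :=
  (hf.comp_continuous hu).prodMk (hg.comp_continuous hv)

theorem isClosed_R {Y : Type} [TopologicalSpace Y] {u v : Y → M} (hu : Continuous u)
    (hv : Continuous v) : IsClosed {y | R (u y) (v y)} := by
  simp only [R, Set.ofPred_forall]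
  exact isClosed_iInter fun n =>
    lc_closed (pair_lc (pr_lc n) (pr_lc n) hu hv) fun p => (T n).adj p.1 p.2

theorem Epi.lift {A : GG} {f : M → A.V} (hf : Epi A f) {a b : A.V} (hab : A.adj a b) :
    ∃ x y, R x y ∧ f x = a ∧ f y = b := by
  obtain ⟨p, hp⟩ := exists_mem_all
    (fun n => {p : M × M | (T n).adj (pr n p.1) (pr n p.2) ∧ f p.1 = a ∧ f p.2 = b})
    (fun n => (lc_closed (pair_lc (pr_lc n) (pr_lc n) continuous_fst continuous_snd)
      fun p => (T n).adj p.1 p.2).inter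
      (lc_closed (pair_lc hf.lc hf.lc continuous_fst continuous_snd) fun p => p.1 = a ∧ p.2 = b))
    (fun n p hp => ⟨pr_adj_mono (Nat.le_succ n) hp.1, hp.2⟩)
    (fun k => by
      obtain ⟨n, hn, g, hg, h⟩ := hf.up k
      obtain ⟨u, v, h1, h2, h3⟩ := hg.good.lift a b hab
      obtain ⟨x, rfl⟩ := pr_surj n u
      obtain ⟨y, rfl⟩ := pr_surj n v
      exact ⟨(x, y), pr_adj_mono hn h1, (h x).trans h2, (h y).trans h3⟩)
  exact ⟨p.1, p.2, fun n => (hp n).1, (hp 0).2⟩

theorem exists_level {K : Set (M × M)} (hK : IsClosed K) (h : ∀ x, (x, x) ∉ K) :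
    ∃ n, ∀ x y, pr n x = pr n y → (x, y) ∉ K := by
  obtain ⟨n, hn⟩ := exists_empty (fun n => {p : M × M | pr n p.1 = pr n p.2 ∧ p ∈ K})
    (fun n => (lc_closed (pair_lc (pr_lc n) (pr_lc n) continuous_fst continuous_snd)
      fun p => p.1 = p.2).inter hK)
    (fun n p hp => ⟨pr_mono (Nat.le_succ n) hp.1, hp.2⟩)
    fun p => by
      by_contra h'
      push Not at h'
      obtain ⟨x, y⟩ := p
      obtain rfl : x = y := pr_ext fun n => (h' n).1
      exact h x (h' 0).2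
  exact ⟨n, fun x y e h' => hn (x, y) ⟨e, h'⟩⟩

theorem Epi.const {A : GG} {f : M → A.V} (hf : Epi A f) {a : A.V} {F G : Set M} (hF : IsClosed F)
    (hG : IsClosed G) (hc : ∀ z, f z = a → z ∈ F ∨ z ∈ G)
    (h : ∀ z w, R z w → f z = a → f w = a → z ∈ F → w ∉ G) {x y : M} (hx : f x = a) (hy : f y = a)
    (hxF : x ∈ F) : y ∈ F := by
  obtain ⟨k, hk⟩ := exists_level (K := ({z | f z = a} ∩ F) ×ˢ ({z | f z = a} ∩ G))
    (((lc_closed hf.lc (· = a)).inter hF).prod ((lc_closed hf.lc (· = a)).inter hG))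
    fun z hz => h z z (R.refl z) hz.1.1 hz.1.1 hz.1.2 hz.2.2
  obtain ⟨n, hn, g, hg, h'⟩ := hf.up k
  have hk' : ∀ z w, pr n z = pr n w → f z = a → z ∈ F → w ∈ F := fun z w e h1 h2 =>
    have h3 : f w = a := by rw [h', ← e, ← h', h1]
    (hc w h3).resolve_right fun h4 => hk z w (pr_mono hn e) ⟨⟨h1, h2⟩, h3, h4⟩
  have key : ∀ v, Conn (T n).adj (fun u => g u = g (pr n x)) (pr n x) v →
      ∀ y, pr n y = v → y ∈ F := by
    intro v hv
    induction hv with
    | refl => exact fun y hy => hk' _ _ hy.symm hx hxF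
    | tail _ hbc ih =>
      intro y hy
      obtain ⟨z, w, h1, h2, h3⟩ := (epi_pr n).lift hbc.1
      have h4 : f w = a := by rw [h', h3, hbc.2.2, ← h', hx]
      exact hk' _ _ (h3.trans hy.symm) h4 ((hc w h4).resolve_right
        (h z w h1 (by rw [h', h2, hbc.2.1, ← h', hx]) h4 (ih z h2)))
  exact key _ (hg.good.conn _ _ (by rw [← h', ← h', hx, hy])) y rfl

theorem Epi.sub {A : GG} {f : M → A.V} (hf : Epi A f) :
    ∃ (A' : GG) (f' : M → A'.V), Epi A' f' ∧ ∀ x z v, A'.adj (f' x) v → A'.adj v (f' z) →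
      (A.adj (f x) (f z) ∧ ∀ y, v = f' y → f x = f y ∨ f y = f z ∨ f x = f z) := by
  obtain ⟨f', hf', h⟩ := hf.ext (mor_sub6 A)
  refine ⟨_, f', hf', fun x z v h1 h2 => ?_⟩
  have h3 := sub6_tri A _ _ _ h1 h2
  have h4 := (mor_sub6 A).good.hom _ _ h1
  have h5 := (mor_sub6 A).good.hom _ _ h2
  simp only [h] at h3 h4 h5
  refine ⟨?_, fun y hy => by rwa [hy, h] at h3⟩
  rcases h3 with h3 | h3 | h3
  · rwa [h3]
  · rwa [← h3]
  · rw [h3]; exact A.refl _

theorem R.tri {x y z : M} (h : R x y) (h' : R y z) : x = y ∨ y = z ∨ x = z := by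
  by_contra hne
  push Not at hne
  obtain ⟨n1, h1⟩ := not_forall.1 fun h => hne.1 (pr_ext h)
  obtain ⟨n2, h2⟩ := not_forall.1 fun h => hne.2.1 (pr_ext h)
  obtain ⟨n3, h3⟩ := not_forall.1 fun h => hne.2.2 (pr_ext h)
  obtain ⟨A', f', hf', h4⟩ := (epi_pr (n1 + n2 + n3)).sub
  rcases (h4 x z _ (hf'.hom h) (hf'.hom h')).2 y rfl with h5 | h5 | h5
  · exact h1 (pr_mono (by omega) h5)
  · exact h2 (pr_mono (by omega) h5)
  · exact h3 (pr_mono (by omega) h5)

theorem R.trans {x y z : M} (h : R x y) (h' : R y z) : R x z := by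
  rcases h.tri h' with rfl | rfl | rfl
  exacts [h', h, R.refl _]

theorem R.free {x : M} {γ : Gam} (h : R x (γ • x)) : γ = 1 := by
  by_contra hn
  obtain ⟨K, hK, v, hv⟩ := exists_moved hn
  obtain ⟨C, ψ, h1, h2⟩ := exists_sep (prod (T 0) K)
  obtain ⟨f, hf, -⟩ := (epi_pr 0).ext
    ((prod_fst (T 0) v fun u w => Conn.single (hK u w) trivial trivial).comp h1)
  exact hv (congrArg Prod.snd (h2 γ _ (hf.eqv γ x ▸ hf.hom h) (pr 0 x, v)))

theorem bf_step (k n : ℕ) (u : M → (T n).V) (hu : Epi (T n) u) :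
    ∃ n', ∃ u' : M → (T n').V, Epi (T n') u' ∧ k ≤ n' ∧
      (∃ θ : (T n').V → (T n).V, (∀ x, θ (u' x) = u x) ∧ ∀ x, θ (pr n' x) = pr n x) ∧
      ∃ α : (T n').V → (T k).V, Good (T n').adj (T k).adj α ∧ ∀ x, α (u' x) = pr k x := by
  obtain ⟨n1, hn1, g, hg, h⟩ := hu.up k
  obtain ⟨v, hv, hv'⟩ := (epi_pr n).ext hg
  obtain ⟨n2, hn2, g', hg', h'⟩ := hv.up k
  obtain ⟨u', hu', hu''⟩ := (epi_pr n1).ext hg'
  obtain ⟨β, hβ, hβ'⟩ := pr_down hn1
  exact ⟨n2, u', hu', hn2, ⟨fun x => g (g' x), fun x => by simp only [hu'', h],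
    fun x => by simp only [← h', hv']⟩, fun x => β (g' x), (hβ.comp hg').good,
    fun x => by simp only [hu'', ← hβ']⟩

/-- Equivariant automorphisms of the limit. -/
def Aut (h : M ≃ₜ M) : Prop := (∀ z w, R (h z) (h w) ↔ R z w) ∧ ∀ (γ : Gam) z, h (γ • z) = γ • h z

theorem exists_aut {n : ℕ} {u : M → (T n).V} (hu : Epi (T n) u) :
    ∃ h : M ≃ₜ M, Aut h ∧ ∀ z, pr n (h z) = u z := by
  choose N U hU hN hθ hα using bf_step
  let S : ℕ → Σ n, {u : M → (T n).V // Epi (T n) u} := fun k =>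
    Nat.rec ⟨n, u, hu⟩ (fun k s => ⟨N k s.1 s.2.1 s.2.2, U k s.1 s.2.1 s.2.2,
      hU k s.1 s.2.1 s.2.2⟩) k
  have hS1 : ∀ k, k ≤ (S (k + 1)).1 := fun k => hN k _ _ _
  have hS2 : ∀ k x y, (S (k + 1)).2.1 x = pr _ y → (S k).2.1 x = pr _ y := fun k x y h => by
    obtain ⟨θ, h1, h2⟩ := hθ k _ _ (S k).2.2
    rw [← h1, ← h2]
    exact congrArg θ h
  have hS3 : ∀ k, ∃ α : (T (S (k + 1)).1).V → (T k).V, Good (T _).adj (T k).adj α ∧
      ∀ x, α ((S (k + 1)).2.1 x) = pr k x := fun k => hα k _ _ (S k).2.2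
  have e1 : ∀ x, ∃ y, ∀ k, (S k).2.1 x = pr _ y := fun x =>
    exists_mem_all (fun k => {y | (S k).2.1 x = pr _ y})
      (fun k => lc_closed (pr_lc _) fun a => (S k).2.1 x = a) (fun k y hy => hS2 k x y hy)
      (fun k => (pr_surj _ _).imp fun _ h => h.symm)
  have e2 : ∀ y, ∃ x, ∀ k, (S k).2.1 x = pr _ y := fun y =>
    exists_mem_all (fun k => {x | (S k).2.1 x = pr _ y})
      (fun k => lc_closed (S k).2.2.lc fun a => a = pr _ y) (fun k x hx => hS2 k x y hx)
      (fun k => (S k).2.2.surj _)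
  choose F hF using e1
  choose F' hF' using e2
  have r1 : ∀ x y x' y', (∀ k, (S k).2.1 x = pr _ y) → (∀ k, (S k).2.1 x' = pr _ y') →
      (R y y' ↔ R x x') := fun x y x' y' h h' => by
    refine ⟨fun hr k => ?_, fun hr k => pr_adj_mono (hS1 k) ?_⟩
    · obtain ⟨α, h1, h2⟩ := hS3 k
      rw [← h2, ← h2, h (k + 1), h' (k + 1)]
      exact h1.hom _ _ (hr _)
    · rw [← h (k + 1), ← h' (k + 1)]
      exact (S (k + 1)).2.2.hom hr
  have r2 : ∀ x y x' y', (∀ k, (S k).2.1 x = pr _ y) → (∀ k, (S k).2.1 x' = pr _ y') →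
      (y = y' ↔ x = x') := fun x y x' y' h h' => by
    refine ⟨fun hr => pr_ext fun k => ?_, fun hr => pr_ext fun k => pr_mono (hS1 k) ?_⟩
    · obtain ⟨α, -, h2⟩ := hS3 k
      rw [← h2, ← h2, h (k + 1), h' (k + 1), hr]
    · rw [← h (k + 1), ← h' (k + 1), hr]
  refine ⟨⟨⟨F, F', fun x => (r2 _ _ _ _ (hF' (F x)) (hF x)).1 rfl,
    fun y => (r2 _ _ _ _ (hF (F' y)) (hF' y)).2 rfl⟩, ?_, ?_⟩,
    ⟨fun z w => r1 _ _ _ _ (hF z) (hF w), fun γ z => (r2 _ _ _ (γ • F z) (hF (γ • z)) fun k => by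
      rw [(S k).2.2.eqv, hF z k, pr_smul]).2 rfl⟩, fun z => (hF z 0).symm⟩
  · refine continuous_of_pr fun k => ?_
    obtain ⟨β, -, hβ⟩ := pr_down (hS1 k)
    have : (fun y => pr k (F y)) = β ∘ (S (k + 1)).2.1 := funext fun y => by
      rw [hβ, ← hF y (k + 1)]; rfl
    exact this ▸ (S (k + 1)).2.2.lc.comp β
  · refine continuous_of_pr fun k => ?_
    obtain ⟨α, -, h2⟩ := hS3 k
    have : (fun y => pr k (F' y)) = α ∘ pr _ := funext fun y => by
      rw [← h2, hF' y (k + 1)]; rfl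
    exact this ▸ (pr_lc _).comp α

theorem move (n : ℕ) : ∃ (A : GG) (f : M → A.V), Epi A f ∧ ∀ x y, A.adj (f x) (f y) → ∀ m,
    ∃ h : M ≃ₜ M, Aut h ∧ (∀ z, (T n).adj (pr n z) (pr n (h z))) ∧ pr m (h x) = pr m y := by
  obtain ⟨A, f, hf, hA⟩ := (epi_pr n).sub
  refine ⟨A, f, hf, fun x y hxy m => ?_⟩
  obtain ⟨m', hm', φ, hφ, h2⟩ := hf.up m
  obtain ⟨C, ψ, hψ, hs⟩ := exists_sep (T m')
  obtain ⟨f1, hf1, h1⟩ := (epi_pr m').ext (hψ.comp (mor_tw C))
  obtain ⟨f2, hf2, h3⟩ := hf1.ext (gpin_fst hφ (hφ.comp hψ) (f1 x) (pr m' y) hs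
    (by rwa [h1, ← h2, ← h2]))
  obtain ⟨h, hh, hh'⟩ := exists_aut (hf2.comp (gpin_snd hφ (hφ.comp hψ) (f1 x) (pr m' y)))
  refine ⟨h, hh, fun z => ?_, pr_mono hm' ?_⟩
  · obtain ⟨v, hv, hv'⟩ := (f2 z).2.1
    beta_reduce at hv
    rw [h3, h1, ← h2] at hv
    rw [← hh', ← h2] at hv'
    exact (hA z (h z) v hv hv').1
  · rw [hh']
    exact ((f2 x).2.2 1 ((h3 x).trans (Prod.ext (C.one _).symm rfl))).trans (GG.one _ _)

end Pool.Agent.Lib.PD66
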