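import Pool.Agent.Lib.PD66.Yq

/-! The bundle `X` over `Y` with fibre `Y`. -/

noncomputable section

namespace Pool.Agent.Lib.PD66

open Topology Filter Set Relation
open Pool.Agent.Lib.MP_0a6a2f_gt (FG Good A0 exists_empty lc_closed lc_open quot_t2
  metrizable_of_surj homog_of_micro lab lab_self lab_symm lab_sq lab_tri)

theorem lab_lc {P : Type} [TopologicalSpace P] {u v : P → Fin 9} (hu : IsLocallyConstant u)
    (hv : IsLocallyConstant v) : Continuous fun p => lab ga gt (u p) (v p) :=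
  (IsLocallyConstant.iff_continuous _).1 ((hu.prodMk hv).comp fun p => lab ga gt p.1 p.2)

@[fun_prop] theorem continuous_lb {P : Type} [TopologicalSpace P] {u v : P → M} (hu : Continuous u)
    (hv : Continuous v) : Continuous fun p => lb (u p) (v p) :=
  lab_lc ((pr_lc 0).comp_continuous hu) ((pr_lc 0).comp_continuous hv)

def xs : Setoid (M × Y) where
  r p q := R p.1 q.1 ∧ p.2 = lb p.1 q.1 • q.2
  iseqv :=
    { refl := fun p => ⟨R.refl _, by rw [lb_of_eq rfl, one_smul]⟩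
      symm := fun h => ⟨h.1.symm, by rw [h.2, smul_smul, lb, lb, lab_symm, one_smul]⟩
      trans := fun h h' => ⟨h.1.trans h'.1, by
        rw [h.2, h'.2, smul_smul, lb, lb, lb, lab_tri ga gt (h.1 0) (h'.1 0) (h.1.trans h'.1 0)]⟩ }

/-- The bundle. -/
abbrev X : Type := Quotient xs

abbrev mk (p : M × Y) : X := Quotient.mk xs p

theorem mk_eq {p q : M × Y} : mk p = mk q ↔ R p.1 q.1 ∧ p.2 = lb p.1 q.1 • q.2 := Quotient.eq

@[fun_prop] theorem continuous_mk : Continuous mk := continuous_quotient_mk'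

theorem mk_inj {z : M} {p q : Y} (h : mk (z, p) = mk (z, q)) : p = q := by
  simpa [lb_of_eq] using (mk_eq.1 h).2

theorem mk_sol {z w : M} (h : R z w) (g : Gam) (p : Y) :
    mk (z, g⁻¹ • p) = mk (w, (g * lb z w)⁻¹ • p) :=
  mk_eq.2 ⟨h, by rw [mul_inv_rev, mul_smul, smul_inv_smul]⟩

instance : T2Space X := quot_t2 _ ((isClosed_R (u := fun q : (M × Y) × M × Y => q.1.1)
  (v := fun q => q.2.1) (by fun_prop) (by fun_prop)).inter (isClosed_eq (by fun_prop) (by fun_prop)))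

instance : TopologicalSpace.MetrizableSpace X :=
  metrizable_of_surj (p := fun p : M × M => mk (p.1, pt p.2)) (by fun_prop) fun x =>
    Quotient.inductionOn x fun p => Quotient.inductionOn p.2 (motive := fun y =>
      ∃ a : M × M, mk (a.1, pt a.2) = mk (p.1, y)) fun z => ⟨(p.1, z), rfl⟩

instance : MetricSpace X := TopologicalSpace.metrizableSpaceMetric X

instance : ConnectedSpace X := by
  have : PreconnectedSpace X := preconnectedSpace_of_forall_constant fun f hf a b =>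
    Quotient.inductionOn₂ a b fun p q => by
      have := sol_const (F := fun z g => f (mk (z, g⁻¹ • p.2)))
        (fun _ => (IsLocallyConstant.iff_continuous _).2 (by fun_prop))
        (fun _ _ _ h => congrArg f (mk_sol h _ _)) p.1 q.1 1 1
      rw [inv_one, one_smul] at this
      exact this.trans (PreconnectedSpace.constant inferInstance (f := fun y => f (mk (q.1, y)))
        (by fun_prop))
  exact ⟨⟨mk (Classical.arbitrary _, Classical.arbitrary _)⟩⟩

theorem contOn {P Q Z : Type} [TopologicalSpace P] [CompactSpace P] [TopologicalSpace Q] [T2Space Q]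
    [TopologicalSpace Z] {p : P → Q} (hp : Continuous p) (hp' : Function.Surjective p) {O : Set Q}
    {g : Q → Z} {G : P → Z} (hG : Continuous G) (h : ∀ x, p x ∈ O → g (p x) = G x) :
    ContinuousOn g O := by
  refine continuousOn_iff_isClosed.2 fun t ht =>
    ⟨_, ((ht.preimage hG).isCompact.image hp).isClosed, Set.ext fun ξ => ?_⟩
  obtain ⟨x, rfl⟩ := hp' ξ
  refine and_congr_left fun hx => ⟨fun h' => ⟨x, by rwa [mem_preimage, ← h x hx], rfl⟩,
    fun ⟨x', h1, h2⟩ => ?_⟩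
  rwa [mem_preimage, ← h2, h x' (h2 ▸ hx)]

/-- The bundle projection. -/
def bt : X → Y := Quotient.map Prod.fst fun _ _ h => h.1

theorem bt_mk (p : M × Y) : bt (mk p) = pt p.1 := rfl

@[fun_prop] theorem continuous_bt : Continuous bt :=
  isQuotientMap_quot_mk.continuous_iff.2 (continuous_pt.comp continuous_fst)

/-- The open star of a vertex of the base graph. -/
def O (a : Fin 9) : Set Y := (pt '' {z | ¬ A0.adj (pr 0 z) a})ᶜ

theorem isOpen_O (a : Fin 9) : IsOpen (O a) := ((epi_pr 0).closed fun b => ¬ A0.adj b a).isOpen_compl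

theorem mem_O (z : M) : pt z ∈ O (pr 0 z) := fun ⟨_, h, h'⟩ => h (pt_eq.1 h' 0)

theorem adj_O {z : M} {a : Fin 9} (h : pt z ∈ O a) : A0.adj (pr 0 z) a :=
  not_not.1 fun h' => h ⟨z, h', rfl⟩

def tau (a : Fin 9) (ξ : X) : Y := lab ga gt a (pr 0 ξ.out.1) • ξ.out.2

def io (a : Fin 9) (q : Y × Y) : X := mk (q.1.out, lab ga gt (pr 0 q.1.out) a • q.2)

theorem tau_mk {a : Fin 9} {p : M × Y} (h : pt p.1 ∈ O a) :
    tau a (mk p) = lab ga gt a (pr 0 p.1) • p.2 := by
  obtain ⟨h1, h2⟩ := mk_eq.1 (Quotient.out_eq (mk p))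
  rw [tau, h2, smul_smul, lb,
    lab_tri ga gt (A0.symm _ _ (adj_O (pt_eq.2 h1 ▸ h))) (h1 0) (A0.symm _ _ (adj_O h))]

theorem io_pt {a : Fin 9} {z : M} (h : pt z ∈ O a) (q : Y) :
    io a (pt z, q) = mk (z, lab ga gt (pr 0 z) a • q) := by
  have h1 := pt_eq.1 (Quotient.out_eq (pt z))
  have h2 := lab_tri ga gt (h1 0) (adj_O h) (adj_O (by rwa [pt_eq.2 h1]))
  exact mk_eq.2 ⟨h1, by rw [smul_smul, lb, h2]⟩

/-- Local trivialisations. -/
def chart (a : Fin 9) : OpenPartialHomeomorph X (Y × Y) where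
  toFun ξ := (bt ξ, tau a ξ)
  invFun := io a
  source := bt ⁻¹' O a
  target := Prod.fst ⁻¹' O a
  map_source' _ h := h
  map_target' q h := by rwa [mem_preimage, io, bt_mk, pt, Quotient.out_eq]
  left_inv' ξ := Quotient.inductionOn ξ fun p h => by
    rw [tau_mk h, bt_mk, io_pt h, smul_smul, lab_symm, one_smul]
  right_inv' q h := by
    obtain ⟨y, q⟩ := q
    obtain ⟨z, rfl⟩ := Quotient.exists_rep y
    rw [io_pt h, tau_mk (p := (z, _)) h, smul_smul, lab_symm, one_smul, bt_mk]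
  open_source := (isOpen_O a).preimage continuous_bt
  open_target := (isOpen_O a).preimage continuous_fst
  continuousOn_toFun := continuous_bt.continuousOn.prodMk (contOn continuous_mk
    Quotient.mk_surjective ((lab_lc (IsLocallyConstant.const a)
      ((pr_lc 0).comp_continuous continuous_fst)).smul continuous_snd) fun _ h => tau_mk h)
  continuousOn_invFun := contOn (continuous_pt.prodMap continuous_id)
    (Quotient.mk_surjective.prodMap Function.surjective_id)
    (continuous_mk.comp (continuous_fst.prodMk ((lab_lc ((pr_lc 0).comp_continuous continuous_fst)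
      (IsLocallyConstant.const a)).smul continuous_snd))) fun p h => io_pt h p.2

instance : LocallyConnectedSpace X :=
  let _ : ChartedSpace (Y × Y) X :=
    { atlas := univ
      chartAt := fun ξ => chart (pr 0 ξ.out.1)
      mem_chart_source := fun ξ => by
        have := mem_O ξ.out.1
        rwa [← bt_mk, mk, Quotient.out_eq] at this
      chart_mem_atlas := fun _ => trivial }
  ChartedSpace.locallyConnectedSpace (Y × Y) X

theorem not_ap_X : ¬ AP X := by
  obtain ⟨L, h1, h2, h3, r, -, h4, h5⟩ := el _ _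
    ((isOpen_O _).mem_nhds (mem_O (Classical.arbitrary M)))
  have := isCompact_iff_compactSpace.1 h2
  have := Subtype.preconnectedSpace h3.isPreconnected
  have : Nontrivial L := not_subsingleton_iff_nontrivial.1 fun _ =>
    h5 ⟨fun s => Complex.log (r s), continuous_of_discreteTopology, fun s => Complex.exp_log (h4 s)⟩
  exact not_ap (j := fun p : L × Y => (chart _).symm (p.1, p.2))
    ((chart _).continuousOn_symm.comp_continuous (by fun_prop) fun p => h1 p.1.2) fun p q h => by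
      have := Prod.ext_iff.1 ((chart _).symm.injOn (h1 p.1.2) (h1 q.1.2) h)
      exact Prod.ext (Subtype.ext this.1) this.2

def kp (p : M × M) : X := mk (p.1, pt p.2)

@[fun_prop] theorem continuous_kp : Continuous kp := by
  unfold kp
  fun_prop

theorem kp_surj (x : X) : ∃ p, kp p = x := by
  obtain ⟨⟨z, y⟩, rfl⟩ := Quotient.exists_rep x
  obtain ⟨w, rfl⟩ := Quotient.exists_rep y
  exact ⟨(z, w), rfl⟩

theorem kp_eq {p q : M × M} : kp p = kp q ↔ R p.1 q.1 ∧ R p.2 (lb p.1 q.1 • q.2) :=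
  mk_eq.trans (and_congr_right fun _ => pt_eq)

theorem unif {ε : ℝ} (hε : 0 < ε) : ∃ n, ∀ p q : M × M, (T n).adj (pr n p.1) (pr n q.1) →
    (T n).adj (pr n p.2) (pr n (lb p.1 q.1 • q.2)) → dist (kp p) (kp q) < ε := by
  obtain ⟨n, hn⟩ := exists_empty (fun n => {s : (M × M) × M × M |
      (T n).adj (pr n s.1.1) (pr n s.2.1) ∧ (T n).adj (pr n s.1.2) (pr n (lb s.1.1 s.2.1 • s.2.2)) ∧
        ε ≤ dist (kp s.1) (kp s.2)})
    (fun n => IsClosed.and (lc_closed (pair_lc (pr_lc n) (pr_lc n) (by fun_prop) (by fun_prop))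
      fun p => (T n).adj p.1 p.2) (IsClosed.and (lc_closed (pair_lc (pr_lc n) (pr_lc n)
        (u := fun s : (M × M) × M × M => s.1.2) (v := fun s => lb s.1.1 s.2.1 • s.2.2) (by fun_prop)
        (by fun_prop)) fun p => (T n).adj p.1 p.2) (isClosed_le (by fun_prop) (by fun_prop))))
    (fun n p hp => ⟨pr_adj_mono n.le_succ hp.1, pr_adj_mono n.le_succ hp.2.1, hp.2.2⟩)
    fun s => by
      by_contra h
      push Not at h
      have := (h 0).2.2
      rw [kp_eq.2 ⟨fun n => (h n).1, fun n => (h n).2.1⟩, dist_self] at this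
      exact absurd hε (not_lt.2 this)
  exact ⟨n, fun p q h h' => not_le.1 fun h'' => hn (p, q) ⟨h, h', h''⟩⟩

theorem exists_lift {h k : M ≃ₜ M} (hh : Aut h) (hk : Aut k)
    (ha : ∀ z, A0.adj (pr 0 z) (pr 0 (h z))) :
    ∃ F : X ≃ₜ X, ∀ p, F (kp p) = kp (h p.1, (lb p.1 (h p.1))⁻¹ • k p.2) := by
  let k' : Y ≃ₜ Y := Homeomorph.Quotient.congr k fun z w => (hk.1 z w).symm
  have hk' : ∀ (γ : Gam) y, k' (γ • y) = γ • k' y := fun γ y =>
    Quotient.inductionOn y fun z => congrArg pt (hk.2 γ z)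
  let e : (M × Y) ≃ₜ (M × Y) :=
    { toFun := fun p => (h p.1, (lb p.1 (h p.1))⁻¹ • k' p.2)
      invFun := fun p => (h.symm p.1, k'.symm (lb (h.symm p.1) p.1 • p.2))
      left_inv := fun p => by simp
      right_inv := fun p => by simp
      continuous_toFun := by fun_prop
      continuous_invFun := by fun_prop }
  refine ⟨Homeomorph.Quotient.congr e fun p q => ?_, fun p => rfl⟩
  change (R p.1 q.1 ∧ p.2 = lb p.1 q.1 • q.2) ↔ R (h p.1) (h q.1) ∧
    (lb p.1 (h p.1))⁻¹ • k' p.2 = lb (h p.1) (h q.1) • (lb q.1 (h q.1))⁻¹ • k' q.2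
  rw [hh.1]
  refine and_congr_right fun hr => ?_
  rw [inv_smul_eq_iff, smul_smul, show lb p.1 (h p.1) * lb (h p.1) (h q.1) = lb p.1 q.1 * lb q.1 (h q.1)
    from lab_sq ga gt (ha p.1) ((hh.1 _ _).2 hr 0) (hr 0) (ha q.1), mul_smul, smul_inv_smul, ← hk',
    k'.injective.eq_iff]

theorem homog (a b : X) : ∃ h : X ≃ₜ X, h a = b := by
  refine homog_of_micro (fun ε hε => ?_) a b
  obtain ⟨n, hn⟩ := unif hε
  obtain ⟨A, f, hf, hA⟩ := move n
  let W : Set ((M × M) × M × M) :=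
    {s | A.adj (f s.1.1) (f s.2.1) ∧ A.adj (f s.1.2) (f (lb s.1.1 s.2.1 • s.2.2))}
  have hW : IsOpen W :=
    (lc_open (pair_lc hf.lc hf.lc (by fun_prop) (by fun_prop)) fun p => A.adj p.1 p.2).inter
      (lc_open (pair_lc hf.lc hf.lc (by fun_prop) (by fun_prop)) fun p => A.adj p.1 p.2)
  obtain ⟨δ, hδ, hδ'⟩ := hW.isClosed_compl.isCompact.exists_forall_le'
    (f := fun s : (M × M) × M × M => dist (kp s.1) (kp s.2)) (a := (0 : ℝ)) (by fun_prop)
    fun s hs => dist_pos.2 fun h => hs ⟨hf.hom (kp_eq.1 h).1, hf.hom (kp_eq.1 h).2⟩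
  refine ⟨δ, hδ, fun a b hab η hη => ?_⟩
  obtain ⟨p, rfl⟩ := kp_surj a
  obtain ⟨q, rfl⟩ := kp_surj b
  have hpq : (p, q) ∈ W := not_not.1 fun h => absurd hab (not_lt.2 (hδ' _ h))
  obtain ⟨m, hm⟩ := unif hη
  obtain ⟨h, h1, h2, h3⟩ := hA _ _ hpq.1 m
  obtain ⟨k, k1, k2, k3⟩ := hA _ _ hpq.2 m
  obtain ⟨F, hF⟩ := exists_lift h1 k1 fun z => pr_adj_mono n.zero_le (h2 z)
  refine ⟨F, fun c => ?_, ?_⟩
  · obtain ⟨r, rfl⟩ := kp_surj c
    rw [hF]
    exact hn _ _ (h2 _) (by rw [smul_inv_smul]; exact k2 _)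
  · have h4 := pr_mono m.zero_le h3
    rw [hF]
    refine hm _ _ (h3 ▸ FG.refl _ _) ?_
    rw [lb_of_eq h4, one_smul, pr_smul, k3, lb, h4, pr_smul, ← lb, GG.inv]
    exact FG.refl _ _

theorem dim_X (n : ℕ) (U : Fin n → Set X) (hU : ∀ i, IsOpen (U i)) (hc : (⋃ i, U i) = univ) :
    ∃ (m : ℕ) (V : Fin m → Set X), (∀ j, IsOpen (V j)) ∧ (⋃ j, V j) = univ ∧
      (∀ j, ∃ i, V j ⊆ U i) ∧ ∀ x : X, {j | x ∈ V j}.ncard ≤ 2 + 1 := by
  classical
  refine dim_two continuous_kp kp_surj (fun ε hε => ?_) n U hU hc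
  obtain ⟨n, hn⟩ := unif hε
  obtain ⟨φ, hφ, hφ'⟩ := pr_down n.zero_le
  obtain ⟨f, hf, hf'⟩ := (epi_pr n).ext (mor_sub6 (T n))
  let a : Set (T n).V → Fin 9 := fun S => if h : S.Nonempty then φ h.some else 0
  have ha : ∀ i z, A0.adj (a (lbl i (f z))) (pr 0 z) := fun i z => by
    have h : (lbl i (f z)).Nonempty := ⟨_, mem_lbl i _⟩
    simp only [a, dif_pos h, hφ', ← hf']
    exact A0.symm _ _ (hφ.good.hom _ _ (lbl_adj h.some_mem))
  let ν : Fin 3 → M × M → M := fun i p => lab ga gt (a (lbl i (f p.1))) (pr 0 p.1) • p.2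
  have hm : ∀ (γ : Gam) z, (f (γ • z)).2 = (f z).2 := fun γ z => by rw [hf.eqv]; rfl
  have hν : ∀ i (p q : M × M), lbl i (f p.1) = lbl i (f q.1) → A0.adj (pr 0 p.1) (pr 0 q.1) →
      ν i q = lab ga gt (a (lbl i (f p.1))) (pr 0 p.1) • lb p.1 q.1 • q.2 := fun i p q h h' => by
    rw [smul_smul, lb, lab_tri ga gt (ha i _) h' (h ▸ ha i _), h]
  refine ⟨Set (T n).V × Set (T n).V, inferInstance, fun i p =>
    if (f p.1).2.1 ≠ 2 * i.1 + 1 ∧ (f (ν i p)).2.1 ≠ 2 * i.1 + 1 then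
      some (lbl i (f p.1), lbl i (f (ν i p))) else none, fun i => ?_, fun x => ?_,
    fun i j p q hp hq => ?_⟩
  · exact (pair_lc hf.lc hf.lc continuous_fst ((lab_lc
      ((hf.lc.comp_continuous continuous_fst).comp fun v => a (lbl i v))
      ((pr_lc 0).comp_continuous continuous_fst)).smul continuous_snd)).comp
      fun s => if s.1.2.1 ≠ 2 * i.1 + 1 ∧ s.2.2.1 ≠ 2 * i.1 + 1 then some (lbl i s.1, lbl i s.2)
        else none
  · obtain ⟨p, rfl⟩ := kp_surj x
    have b : ∀ z, {i : Fin 3 | ∃ w, R w z ∧ (f w).2.1 = 2 * i.1 + 1}.Subsingleton :=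
      fun z i ⟨w, h1, h2⟩ i' ⟨w', h3, h4⟩ => by
        have := mark_le (hf.hom (h1.trans h3.symm))
        have := mark_le (hf.hom (h3.trans h1.symm))
        omega
    obtain ⟨i, h1, h2⟩ : ∃ i : Fin 3, (∀ w, R w p.1 → (f w).2.1 ≠ 2 * i.1 + 1) ∧
        ∀ w, R w p.2 → (f w).2.1 ≠ 2 * i.1 + 1 := by
      by_contra h
      simp only [not_exists, not_and_or, not_forall, not_not, exists_prop] at h
      rcases h 0 with h0 | h0 <;> rcases h 1 with h1 | h1 <;> rcases h 2 with h2 | h2 <;>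
        first | cases b _ h0 h1 | cases b _ h0 h2 | cases b _ h1 h2
    refine ⟨i, (lbl i (f p.1), lbl i (f (ν i p))), fun q hq => ?_⟩
    obtain ⟨r1, r2⟩ := kp_eq.1 hq.symm
    have e1 := lbl_eq (hf.hom r1) (h1 _ (R.refl _)) (h1 _ r1.symm)
    have e2 : (f (ν i q)).2.1 ≠ 2 * i.1 + 1 := by
      rw [hm, ← hm (lb p.1 q.1)]
      exact h2 _ r2.symm
    refine (if_pos ⟨h1 _ r1.symm, e2⟩).trans ?_
    rw [← e1, lbl_eq (x := f (ν i p)) (y := f (ν i q))
      (hf.hom (hν i p q e1 (r1 0) ▸ r2.smul _)) (by rw [hm]; exact h2 _ (R.refl _)) e2]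
  · obtain ⟨e1, e2⟩ := Prod.mk.inj ((Option.ite_none_right_eq_some.1 hp).2.trans
      (Option.ite_none_right_eq_some.1 hq).2.symm |> Option.some.inj)
    have a1 := lbl_adj (e1.symm ▸ mem_lbl i (f q.1) : _ ∈ lbl i (f p.1))
    have a2 := lbl_adj (e2.symm ▸ mem_lbl i (f (ν i q)) : _ ∈ lbl i (f (ν i p)))
    rw [hf', hf'] at a1 a2
    rw [hν i p q e1 (pr_adj_mono n.zero_le a1), pr_smul, pr_smul] at a2
    exact hn p q a1 <| by
      simpa only [GG.inv] using (T n).hact (lab ga gt (a (lbl i (f p.1))) (pr 0 p.1))⁻¹ _ _ a2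

end Pool.Agent.Lib.PD66
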