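import Pool.Agent.Lib.PD66.Tw
import Pool.Agent.Lib.PD66.Rigid
import Pool.Agent.Lib.MP_0a6a2f_gt.Space

/-! The curve `Y` with a free action of `Gam`. -/

noncomputable section

namespace Pool.Agent.Lib.PD66

open Topology Filter Set Relation
open Pool.Agent.Lib.MP_0a6a2f_gt (FG Good Conn Near A0 exists_empty exists_mem_all lc_closed lc_open
  quot_t2 metrizable_of_surj dim_le_one lab lab_self lab_tri loops)

def rs : Setoid M := ⟨R, R.refl, R.symm, R.trans⟩

/-- The curve. -/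
abbrev Y : Type := Quotient rs

abbrev pt (z : M) : Y := Quotient.mk rs z

theorem pt_eq {z w : M} : pt z = pt w ↔ R z w := Quotient.eq

@[fun_prop] theorem continuous_pt : Continuous pt := continuous_quotient_mk'

instance : T2Space Y := quot_t2 _ (isClosed_R continuous_fst continuous_snd)

instance : SecondCountableTopology M := TopologicalSpace.secondCountableTopology_induced _ _ _

instance : TopologicalSpace.MetrizableSpace Y :=
  metrizable_of_surj continuous_pt Quotient.mk_surjective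

instance : MulAction Gam Y where
  smul γ := Quotient.map (γ • ·) fun _ _ h => R.smul h γ
  one_smul y := Quotient.inductionOn y fun z => congrArg pt (one_smul _ z)
  mul_smul a b y := Quotient.inductionOn y fun z => congrArg pt (mul_smul a b z)

theorem smul_pt (γ : Gam) (z : M) : γ • pt z = pt (γ • z) := rfl

instance : ContinuousSMul Gam Y :=
  ⟨continuous_prod_of_discrete_left.2 fun γ => isQuotientMap_quot_mk.continuous_iff.2
    (continuous_pt.comp (continuous_const_smul γ))⟩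

theorem free {a b : Gam} {y : Y} (h : a • y = b • y) : a = b := by
  obtain ⟨z, rfl⟩ := Quotient.exists_rep y
  rw [← smul_left_cancel_iff a⁻¹, inv_smul_smul, ← mul_smul] at h
  exact inv_mul_eq_one.1 (pt_eq.1 h).free

theorem Epi.closed {A : GG} {f : M → A.V} (hf : Epi A f) (S : A.V → Prop) :
    IsClosed (pt '' {z | S (f z)}) :=
  ((lc_closed hf.lc S).isCompact.image continuous_pt).isClosed

theorem Epi.preconn {A : GG} {f : M → A.V} (hf : Epi A f) (a : A.V) :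
    IsPreconnected (pt '' {z | f z = a}) := by
  refine isPreconnected_iff_subset_of_disjoint_closed.2 fun u v hu hv hc hd => ?_
  by_cases h : ∃ x, f x = a ∧ pt x ∈ u
  · obtain ⟨x, hx, hxu⟩ := h
    refine Or.inl ?_
    rintro _ ⟨y, hy, rfl⟩
    exact hf.const (hu.preimage continuous_pt) (hv.preimage continuous_pt)
      (fun z hz => hc ⟨z, hz, rfl⟩) (fun z w hr h1 _ h3 h4 =>
        hd.subset ⟨⟨z, h1, rfl⟩, h3, (pt_eq.2 hr).symm ▸ h4⟩) hx hy hxu
  · refine Or.inr ?_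
    rintro _ ⟨y, hy, rfl⟩
    exact (hc ⟨y, hy, rfl⟩).resolve_left fun h' => h ⟨y, hy, h'⟩

/-- The voltage of a pair of points. -/
def lb (z w : M) : Gam := lab ga gt (pr 0 z) (pr 0 w)

theorem lb_of_eq {z w : M} (h : pr 0 z = pr 0 w) : lb z w = 1 := by
  rw [lb, h, lab_self]

/-- The cover of `Y` with group `Gam` is connected. -/
theorem sol_const {α : Type} {F : M → Gam → α} (h1 : ∀ g, IsLocallyConstant fun z => F z g)
    (h2 : ∀ z w g, R z w → F z g = F w (g * lb z w)) (z w : M) (g g' : Gam) : F z g = F w g' := by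
  have c0 : ∀ z w g, pr 0 z = pr 0 w → F z g = F w g := fun z w g h =>
    ((epi_pr 0).const (a := pr 0 z) (lc_closed (h1 g) (· = F z g)) (lc_closed (h1 g) (· ≠ F z g))
      (fun _ _ => em _) (fun u v hr e1 e2 h3 h4 => h4 (by
        rw [← h3, h2 u v g hr, lb_of_eq (e1.trans e2.symm), mul_one])) rfl h.symm rfl).symm
  obtain ⟨l1, l2⟩ := loops ga gt (A := A0) (Good.id _)
    (fun a γ b => ∀ z w g, pr 0 z = a → pr 0 w = b → F z g = F w (g * γ))
    (fun a b h z w g hz hw => by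
      obtain ⟨z', w', h3, h4, h5⟩ := (epi_pr 0).lift h
      rw [c0 z z' g (hz.trans h4.symm), c0 w w' _ (hw.trans h5.symm), ← h4, ← h5]
      exact h2 _ _ _ h3)
    (fun a γ b γ' c h h' z w g hz hw => by
      obtain ⟨u, hu⟩ := pr_surj 0 b
      rw [h z u g hz hu, h' u w _ hu hw, mul_assoc])
  obtain ⟨o, ho⟩ := pr_surj 0 (0 : Fin 9)
  have h4 : ∀ z g, F o 1 = F z g := fun z g => by
    obtain ⟨γ, hγ⟩ := l2 (0 : Fin 9) (pr 0 z) rfl
    rw [l1 (0 : Fin 9) rfl (g * γ⁻¹) (gen ▸ Subgroup.mem_top _) o o 1 ho ho, hγ o z _ ho rfl, one_mul,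
      inv_mul_cancel_right]
  rw [← h4, h4]

instance : ConnectedSpace Y := by
  have : PreconnectedSpace Y := preconnectedSpace_of_forall_constant fun f hf a b =>
    Quotient.inductionOn₂ a b fun z w => sol_const (F := fun z _ => f (pt z))
      (fun _ => (IsLocallyConstant.iff_continuous _).2 (hf.comp continuous_pt))
      (fun _ _ _ h => congrArg f (pt_eq.2 h)) z w 1 1
  exact ⟨⟨pt (Classical.arbitrary M)⟩⟩

instance : Nontrivial Y := by
  obtain ⟨z, hz⟩ := pr_surj 0 (0 : Fin 9)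
  obtain ⟨w, hw⟩ := pr_surj 0 (2 : Fin 9)
  refine ⟨pt z, pt w, fun h => ?_⟩
  have := pt_eq.1 h 0
  rw [hz, hw] at this
  cases this

theorem small {y : Y} {W : Set Y} (hW : W ∈ 𝓝 y) :
    ∃ n, ∀ z w, pt z = y → pr n z = pr n w → pt w ∈ W := by
  obtain ⟨n, hn⟩ := exists_level (K := (pt ⁻¹' {y}) ×ˢ (pt ⁻¹' (interior W)ᶜ))
    ((isClosed_singleton.preimage continuous_pt).prod
      (isOpen_interior.isClosed_compl.preimage continuous_pt))
    fun z hz => hz.2 (hz.1.symm ▸ mem_interior_iff_mem_nhds.2 hW)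
  exact ⟨n, fun z w h h' => interior_subset (not_not.1 fun h'' => hn z w h' ⟨h, h''⟩)⟩

instance : LocallyConnectedSpace Y := by
  refine locallyConnectedSpace_iff_connected_subsets.2 fun y W hW => ?_
  obtain ⟨n, hn⟩ := small hW
  refine ⟨pt '' {w | ∃ z, pt z = y ∧ pr n z = pr n w}, mem_of_superset
    (((epi_pr n).closed fun a => ¬ ∃ z, pt z = y ∧ pr n z = a).isOpen_compl.mem_nhds
      fun ⟨w, h1, h2⟩ => h1 ⟨w, h2, rfl⟩) fun c hc => ?_, isPreconnected_of_forall y ?_, ?_⟩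
  · obtain ⟨w, rfl⟩ := Quotient.exists_rep c
    exact ⟨w, not_not.1 fun h => hc ⟨w, h, rfl⟩, rfl⟩
  · rintro _ ⟨w, ⟨z, h1, h2⟩, rfl⟩
    exact ⟨_, image_mono fun v hv => ⟨z, h1, Eq.symm hv⟩, ⟨z, rfl, h1⟩, ⟨w, h2.symm, rfl⟩,
      (epi_pr n).preconn (pr n z)⟩
  · rintro _ ⟨w, ⟨z, h1, h2⟩, rfl⟩
    exact hn z w h1 h2

theorem ap : AP Y := by
  let := TopologicalSpace.metrizableSpaceMetric Y
  exact ap_of_dim (dim_le_one continuous_pt Quotient.mk_surjective
    fun _ _ _ h h' => (pt_eq.1 h).tri (pt_eq.1 h'))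

/-- The cycle of length four. -/
def C4 : GG := triv ⟨Fin 4, inferInstance, fun i j => i = j ∨ i + 1 = j ∨ j + 1 = i,
  fun _ => Or.inl rfl, fun _ _ h => h.imp Eq.symm Or.symm⟩

theorem el : EL Y := by
  intro y W hW
  obtain ⟨n, hn⟩ := small hW
  obtain ⟨z, rfl⟩ := Quotient.exists_rep y
  have c4 : ∀ i : Fin 4, Conn C4.adj (fun _ => True) (0 : Fin 4) i := fun i => by
    induction i using Fin.induction with
    | zero => exact ReflTransGen.refl
    | succ i ih => exact ih.trans (Conn.single (Or.inr (Or.inl Fin.coeSucc_eq_succ)) trivial trivial)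
  obtain ⟨f, hf, hf'⟩ := (epi_pr n).ext (prod_fst (T n) (D := C4) (0 : Fin 4)
    fun u v => (conn_symm C4.symm (c4 u)).trans (c4 v))
  have ury : ∀ i j : Fin 4, ¬ C4.adj i j → ∃ u : C(Y, ℝ), (∀ w, (f w).2 = i → u (pt w) = 0) ∧
      ∀ w, (f w).2 = j → u (pt w) = 1 := fun i j hij => by
    obtain ⟨u, u0, u1, -⟩ := exists_continuous_zero_one_of_isClosed (hf.closed (·.2 = i))
      (hf.closed (·.2 = j)) (Set.disjoint_left.2 fun _ ⟨v, h1, h2⟩ ⟨w, h3, h4⟩ =>
        hij (h1 ▸ h3 ▸ (hf.hom (pt_eq.1 (h2.trans h4.symm))).2))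
    exact ⟨u, fun w h => u0 ⟨w, h, rfl⟩, fun w h => u1 ⟨w, h, rfl⟩⟩
  obtain ⟨u, u0, u1⟩ := ury 0 2 (by rintro (h | h | h) <;> cases h)
  obtain ⟨v, v0, v1⟩ := ury 1 3 (by rintro (h | h | h) <;> cases h)
  let r : Y → ℂ := fun y => (1 - 2 * u y : ℝ) + (1 - 2 * v y : ℝ) * Complex.I
  have r0 : ∀ w, (f w).2 = (0 : Fin 4) → 0 < (r (pt w)).re := fun w h => by simp [r, u0 w h]
  have r1 : ∀ w, (f w).2 = (1 : Fin 4) → 0 < (r (pt w)).im := fun w h => by simp [r, v0 w h]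
  have r2 : ∀ w, (f w).2 = (2 : Fin 4) → (r (pt w)).re < 0 := fun w h => by simp [r, u1 w h]
  have r3 : ∀ w, (f w).2 = (3 : Fin 4) → (r (pt w)).im < 0 := fun w h => by simp [r, v1 w h]
  let L := pt '' {w | pr n w = pr n z}
  let S : Fin 4 → Set L := fun i => Subtype.val ⁻¹' (pt '' {w | f w = (pr n z, i)})
  have s1 : ∀ i : Fin 4, pt '' {w | f w = (pr n z, i)} ⊆ L := fun i =>
    image_mono fun w hw => (hf' w).symm.trans (congrArg Prod.fst hw)
  have s2 : ∀ i, IsPreconnected (S i) := fun i => IsInducing.subtypeVal.isPreconnected_image.1 (by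
    rw [Subtype.image_preimage_coe, inter_eq_right.2 (s1 i)]
    exact hf.preconn _)
  have s3 : ∀ i, (S i ∩ S (i + 1)).Nonempty := fun i => by
    obtain ⟨a, b, h1, h2, h3⟩ := hf.lift (a := (pr n z, i)) (b := (pr n z, i + 1))
      ⟨FG.refl _ _, Or.inr (Or.inl rfl)⟩
    exact ⟨⟨pt a, s1 i ⟨a, h2, rfl⟩⟩, ⟨a, h2, rfl⟩, b, h3, (pt_eq.2 h1).symm⟩
  refine ⟨L, ?_, ((epi_pr n).closed (· = pr n z)).isCompact,
    ⟨⟨_, z, rfl, rfl⟩, (epi_pr n).preconn _⟩, r, by fun_prop, fun y e => ?_,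
    quad (s2 0) (s2 1) (s2 2) (s2 3) (fun _ ⟨w, h1, h2⟩ => h2 ▸ r0 w (congrArg Prod.snd h1))
      (fun _ ⟨w, h1, h2⟩ => h2 ▸ r1 w (congrArg Prod.snd h1))
      (fun _ ⟨w, h1, h2⟩ => h2 ▸ r2 w (congrArg Prod.snd h1))
      (fun _ ⟨w, h1, h2⟩ => h2 ▸ r3 w (congrArg Prod.snd h1)) (s3 3) (s3 0) (s3 1) (s3 2)⟩
  · rintro _ ⟨w, hw, rfl⟩
    exact hn z w rfl hw.symm
  · obtain ⟨w, rfl⟩ := Quotient.exists_rep y
    have : ∀ i : Fin 4, i = 0 ∨ i = 1 ∨ i = 2 ∨ i = 3 := by decide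
    rcases this (f w).2 with h | h | h | h
    exacts [by simpa [e] using r0 w h, by simpa [e] using r1 w h, by simpa [e] using r2 w h,
      by simpa [e] using r3 w h]

end Pool.Agent.Lib.PD66
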